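import Pool.Agent.Work.MP_69fea5_lc.QPrim

set_option autoImplicit false

/-! Definitions for the colouring without `Σ⁰₄` solutions. -/

namespace Pool.Agent.Work.MP_69fea5_lc.S4

open Pool.Agent.Work.MP_69fea5_lc.DJ

/-! ### Words of gap letters and the node count -/

/-- The gap letter of the gap `(a, b)`: the least `j < a` with `g j a ≠ g j b`, else `a`. -/
def gl (g : ℕ → ℕ → ℕ) (a b : ℕ) : ℕ :=
  ((List.range a).find? (fun j => decide (g j a ≠ g j b))).getD a

/-- The word of the gap letters of a list of positions. -/
def wd (g : ℕ → ℕ → ℕ) : List ℕ → List ℕ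
  | [] => []
  | [_] => []
  | a :: b :: L => gl g a b :: wd g (b :: L)

/-- The contribution of a letter `a` which comes after the word `r` (latest letter first): `1` if
the latest letter `≤ a` of `r` is `< a` or does not exist, else `0`. -/
def ctr (a : ℕ) (r : List ℕ) : ℕ :=
  match r.find? (fun x => decide (x ≤ a)) with
  | none => 1
  | some x => if x < a then 1 else 0

/-- The node count of a word (latest letter first). -/
def nd : List ℕ → ℕ
  | [] => 0
  | a :: r => nd r + ctr a r

/-- The word of a number, latest letter first. -/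
def rw (g : ℕ → ℕ → ℕ) (n : ℕ) : List ℕ := (wd g (bits n)).reverse

/-- The node count of a number. -/
def cnt (g : ℕ → ℕ → ℕ) (n : ℕ) : ℕ := nd (rw g n)

/-- The environment is nondecreasing. -/
def Mono (g : ℕ → ℕ → ℕ) : Prop := ∀ j t t', t ≤ t' → g j t ≤ g j t'

/-- All columns of the environment are bounded. -/
def Good (g : ℕ → ℕ → ℕ) : Prop := ∀ j, ∃ B, ∀ t, g j t ≤ B

/-! ### The colouring, relative to a target function `tg` -/

/-- The number `m` is a hit at the split `b` of `N`, `l` being the start of the visible part. -/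
def hit (tg : ℕ → ℕ → ℕ) (b N l m : ℕ) : Bool :=
  decide (0 < tg m (N - N % 2 ^ b) ∧ tg m (N - N % 2 ^ b) < 2 ^ b ∧
    tg m (N - N % 2 ^ b) - tg m (N - N % 2 ^ b) % 2 ^ l = N % 2 ^ b - N % 2 ^ l)

/-- The least hit. -/
def hitm (tg : ℕ → ℕ → ℕ) (b N l : ℕ) : Option ℕ :=
  (List.range (2 ^ (b + 1))).find? (fun m => hit tg b N l m)

/-- The state after processing the positions `< b` of `N`. -/
def St (tg : ℕ → ℕ → ℕ) : ℕ → ℕ → ℕ × Bool
  | 0, _ => (0, false)
  | b + 1, N =>
    if N.testBit b = true then
      if N % 2 ^ b = 0 then (b, false) else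
        match hitm tg b N (St tg b N).1 with
        | none => St tg b N
        | some m => (b, !(xor (St tg b N).2 (St tg b (tg m (N - N % 2 ^ b) + (N - N % 2 ^ b))).2))
    else St tg b N

/-- The colouring associated with the target function. -/
def co (tg : ℕ → ℕ → ℕ) (N : ℕ) : Bool := (St tg N N).2

/-! ### The environments given by codes -/

/-- The code with number `e` applied to `(e, k, j, u, l)` gives `0` within time `t`, for some
`l ≤ t`. -/
def ref (e k j u t : ℕ) : Bool :=
  (List.range (t + 1)).any (fun l => decide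
    (Nat.Partrec.Code.evaln t (Denumerable.ofNat Nat.Partrec.Code e)
      (Nat.pair e (Nat.pair k (Nat.pair j (Nat.pair u l)))) = some 0))

/-- The least `u ≤ t` which is not refuted by time `t`, else `t + 1`. -/
def gg (e k j t : ℕ) : ℕ :=
  ((List.range (t + 1)).find? (fun u => !ref e k j u t)).getD (t + 1)

/-- The least `k` for which the node count of the test `(e, k)` at `Z` is not `1` modulo `3`
(and `0` if there is none below `Z`). -/
def tau (e Z : ℕ) : ℕ :=
  ((List.range Z).find? (fun k => decide (cnt (gg e k) Z % 3 ≠ 1))).getD 0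

/-- The list coded by `k` (the second component of `k` is a witness). -/
def lst (k : ℕ) : List ℕ := dec k.unpair.1

/-- The target of the number `m = 2 ^ e + i`, `i < 2 ^ e`. -/
def tgt (m Z : ℕ) : ℕ :=
  if m = 0 then 0 else (lst (tau (Nat.log2 m) Z)).getD (m - 2 ^ Nat.log2 m) 0

/-- The colouring without `Σ⁰₄` solutions. -/
def c4 (N : ℕ) : Bool := co tgt N

end Pool.Agent.Work.MP_69fea5_lc.S4
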