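import Pool.Agent.Work.MP_69fea5_lc.S4.Stmts

set_option autoImplicit false

/-! Gap letters: items A1, A2, A3. -/

namespace Pool.Agent.Work.MP_69fea5_lc.S4

open Pool.Agent.Work.MP_69fea5_lc.DJ

lemma gl_ge (g : ℕ → ℕ → ℕ) (a b p : ℕ) (h : ∀ j, j < p → g j a = g j b) (hp : p ≤ a) :
    p ≤ gl g a b := by
  unfold gl
  rcases hf : (List.range a).find? (fun j => decide (g j a ≠ g j b)) with _ | i
  · simpa using hp
  · have h1 := List.find?_some hf
    simp only [ne_eq, decide_not, Bool.not_eq_eq_eq_not, Bool.not_true, decide_eq_false_iff_not]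
      at h1
    simp only [Option.getD_some]
    by_contra hlt
    exact h1 (h i (not_le.1 hlt))

lemma gl_eq (g : ℕ → ℕ → ℕ) (a b j : ℕ) (hj : j < a) (hne : g j a ≠ g j b)
    (h : ∀ i, i < j → g i a = g i b) : gl g a b = j := by
  unfold gl
  have hf : (List.range a).find? (fun j => decide (g j a ≠ g j b)) = some j := by
    rw [List.find?_range_eq_some]
    refine ⟨by simpa using hne, List.mem_range.2 hj, fun i hi => ?_⟩
    simpa using h i hi
  rw [hf]
  rfl

lemma find?_congr_mem {α : Type} (p q : α → Bool) (L : List α) (h : ∀ x ∈ L, p x = q x) :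
    L.find? p = L.find? q := by
  induction L with
  | nil => rfl
  | cons x L ih =>
    rw [List.find?_cons, List.find?_cons, h x (by simp), ih fun y hy => h y (by simp [hy])]

lemma gl_congr (g : ℕ → ℕ → ℕ) (a c c' : ℕ) (h : ∀ j, j < a → (g j a = g j c ↔ g j a = g j c')) :
    gl g a c = gl g a c' := by
  unfold gl
  rw [find?_congr_mem _ (fun j => decide (g j a ≠ g j c'))]
  intro j hj
  have := h j (List.mem_range.1 hj)
  by_cases h1 : g j a = g j c
  · simp [h1, ← this.1 h1]
  · have h2 : g j a ≠ g j c' := fun h => h1 (this.2 h)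
    simp [h1, h2]

lemma col_stab (g : ℕ → ℕ → ℕ) (hm : Mono g) (j : ℕ) (hB : ∃ B, ∀ t, g j t ≤ B) :
    ∃ T, ∀ t, T ≤ t → g j t = g j T := by
  obtain ⟨B, hB⟩ := hB
  have hne : (Set.range (g j)).Nonempty := ⟨g j 0, 0, rfl⟩
  have hbd : BddAbove (Set.range (g j)) := ⟨B, by rintro _ ⟨t, rfl⟩; exact hB t⟩
  obtain ⟨T, hT⟩ := Nat.sSup_mem hne hbd
  refine ⟨T, fun t ht => le_antisymm ?_ (hm j T t ht)⟩
  rw [hT]
  exact le_csSup hbd ⟨t, rfl⟩

lemma le_sum_range' (T : ℕ → ℕ) (n j : ℕ) (hj : j < n) : T j ≤ ∑ i ∈ Finset.range n, T i :=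
  Finset.single_le_sum (f := T) (fun _ _ => Nat.zero_le _) (Finset.mem_range.2 hj)

theorem a2 : A2 := by
  intro g hm hg p
  choose T hT using fun j => col_stab g hm j (hg j)
  refine ⟨p + 1 + ∑ j ∈ Finset.range (p + 1), T j, fun a ha c hc => ?_⟩
  refine gl_ge g a c (p + 1) (fun j hj => ?_) (by omega)
  have h1 := le_sum_range' T (p + 1) j hj
  rw [hT j a (by omega), hT j c (by omega)]

theorem a1 : A1 := by
  classical
  intro g hm hg
  have hex : ∃ j, ¬ ∃ B, ∀ t, g j t ≤ B := by
    unfold Good at hg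
    push Not at hg ⊢
    exact hg
  have hb := Nat.find_spec hex
  have hlt : ∀ j, j < Nat.find hex → ∃ B, ∀ t, g j t ≤ B := fun j hj =>
    not_not.1 (Nat.find_min hex hj)
  generalize Nat.find hex = b at hb hlt
  have hst : ∀ j, ∃ T, j < b → ∀ t, T ≤ t → g j t = g j T := by
    intro j
    by_cases hj : j < b
    · obtain ⟨T, hT⟩ := col_stab g hm j (hlt j hj)
      exact ⟨T, fun _ => hT⟩
    · exact ⟨0, fun h => absurd h hj⟩
  choose T hT using hst
  refine ⟨b, b + 1 + ∑ j ∈ Finset.range b, T j, fun a ha => ?_⟩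
  have hagree : ∀ c, a < c → ∀ j, j < b → g j a = g j c := by
    intro c hc j hj
    have h1 := le_sum_range' T b j hj
    rw [hT j hj a (by omega), hT j hj c (by omega)]
  refine ⟨fun c hc => gl_ge g a c b (hagree c hc) (by omega), ?_⟩
  push Not at hb
  obtain ⟨C0, hC0⟩ := hb (g b a)
  refine ⟨C0 + (a + 1), fun c hc => ?_⟩
  refine gl_eq g a c b (by omega) ?_ (hagree c (by omega))
  have := hm b C0 c (by omega)
  omega

theorem a3 : A3 := by
  intro g hm a
  have hst : ∀ j, ∃ C, ∀ c c', C ≤ c → C ≤ c' → (g j a = g j c ↔ g j a = g j c') := by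
    intro j
    by_cases hj : ∃ C0, g j a < g j C0
    · obtain ⟨C0, hC0⟩ := hj
      refine ⟨C0, fun c c' hc hc' => ?_⟩
      have h1 := hm j C0 c hc
      have h2 := hm j C0 c' hc'
      constructor <;> intro h <;> omega
    · push Not at hj
      refine ⟨a, fun c c' hc hc' => ?_⟩
      have h1 := hm j a c hc
      have h2 := hm j a c' hc'
      have h3 := hj c
      have h4 := hj c'
      constructor <;> intro _ <;> omega
  choose C hC using hst
  refine ⟨gl g a (∑ j ∈ Finset.range a, C j), ∑ j ∈ Finset.range a, C j, fun c hc => ?_⟩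
  refine gl_congr g a c _ fun j hj => ?_
  have h1 := le_sum_range' C a j hj
  exact hC j c _ (by omega) h1

end Pool.Agent.Work.MP_69fea5_lc.S4
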