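import Pool.Agent.Work.MP_69fea5_lc.S4.Stmts

set_option autoImplicit false

/-! Words of numbers: B1 and B2. -/

namespace Pool.Agent.Work.MP_69fea5_lc.S4

open Pool.Agent.Work.MP_69fea5_lc.DJ

lemma B_wd_append (g : ℕ → ℕ → ℕ) {L M : List ℕ} (hL : L ≠ []) (hM : M ≠ []) :
    wd g (L ++ M) = wd g L ++ gl g (hi L) (lo M) :: wd g M := by
  induction L with
  | nil => exact absurd rfl hL
  | cons a L ih =>
    cases L with
    | nil =>
      cases M with
      | nil => exact absurd rfl hM
      | cons b M => simp [wd, hi, lo]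
    | cons b L =>
      have h1 : hi (a :: b :: L) = hi (b :: L) := by
        simp [hi]
      have := ih (by simp)
      rw [List.cons_append] at this
      rw [List.cons_append, List.cons_append, wd, this, wd, h1, List.cons_append]

lemma B_mem_wd (g : ℕ → ℕ → ℕ) : ∀ L : List ℕ, L.Pairwise (· < ·) → ∀ x ∈ wd g L,
    ∃ a ∈ L, ∃ c ∈ L, a < c ∧ x = gl g a c := by
  intro L
  induction L with
  | nil => intro _ x hx; simp [wd] at hx
  | cons a L ih =>
    intro hL x hx
    cases L with
    | nil => simp [wd] at hx
    | cons b L =>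
      rw [wd, List.mem_cons] at hx
      rcases hx with rfl | hx
      · refine ⟨a, by simp, b, by simp, ?_, rfl⟩
        exact (List.pairwise_cons.mp hL).1 b (by simp)
      · obtain ⟨a', ha', c, hc, h1, h2⟩ := ih (List.pairwise_cons.mp hL).2 x hx
        exact ⟨a', List.mem_cons_of_mem _ ha', c, List.mem_cons_of_mem _ hc, h1, h2⟩

theorem b1 : B1 := by
  intro g n x hx
  have hx' : x ∈ wd g (bits n) := by
    unfold rw at hx
    exact List.mem_reverse.mp hx
  exact B_mem_wd g (bits n) (List.Pairwise.filter _ List.pairwise_lt_range) x hx'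

theorem b2 : B2 := by
  intro g x y k hx hy hxk hky
  have e : bits (x + y) = bits x ++ bits y := bits_add hxk hky
  unfold rw
  rw [e, B_wd_append g (bits_ne_nil hx) (bits_ne_nil hy), List.reverse_append,
    List.reverse_cons, List.append_assoc, List.singleton_append]

end Pool.Agent.Work.MP_69fea5_lc.S4
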