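import Pool.Agent.Work.MP_69fea5_lc.S4.Stmts

set_option autoImplicit false

/-! C: finitely many tests can be answered correctly by one sum of three elements -/

namespace Pool.Agent.Work.MP_69fea5_lc.S4

open Pool.Agent.Work.MP_69fea5_lc.DJ

namespace CProof

lemma two_mul_le {n : ℕ} (h : 0 < n) : 2 * n ≤ 2 ^ n := by
  obtain ⟨m, rfl⟩ : ∃ m, n = m + 1 := ⟨n - 1, by omega⟩
  have : m < 2 ^ m := Nat.lt_two_pow_self
  rw [pow_succ]
  omega

lemma ctr_le (a : ℕ) (r : List ℕ) : ctr a r ≤ 1 := by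
  unfold ctr
  split
  · exact le_refl _
  · split <;> omega

lemma nd_cons (a : ℕ) (r : List ℕ) : nd (a :: r) = nd r + ctr a r := rfl

end CProof

open CProof in
theorem c_of (a1 : A1) (a2 : A2) (a3 : A3) (b1 : B1) (b2 : B2) (n1 : N1) (n2 : N2) (n3 : N3) :
    C := by
  intro K g hM Y hY B
  -- the bad case
  have hbad : ∀ k, ∃ b T, ¬ Good (g k) → ∀ a, T ≤ a →
      (∀ c, a < c → b ≤ gl (g k) a c) ∧ ∃ C, ∀ c, C ≤ c → gl (g k) a c = b := by
    intro k
    by_cases hk : Good (g k)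
    · exact ⟨0, 0, fun h => absurd hk h⟩
    · obtain ⟨b, T, h⟩ := a1 (g k) (hM k) hk
      exact ⟨b, T, fun _ => h⟩
  choose b T hbT using hbad
  set T' := B + ∑ k ∈ Finset.range K, T k with hT'
  have hTk : ∀ k < K, T k ≤ T' := by
    intro k hk
    have := Finset.single_le_sum (f := T) (fun i _ => Nat.zero_le _) (Finset.mem_range.2 hk)
    omega
  -- stabilisation
  have hst : ∀ k y, ∃ q C, ∀ c, C ≤ c → gl (g k) (hi (bits y)) c = q :=
    fun k y => a3 (g k) (hM k) (hi (bits y))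
  choose q C1 hq using hst
  have hgd : ∀ k y, ∃ C, Good (g k) → ∀ a, C ≤ a → ∀ c, a < c → q k y < gl (g k) a c := by
    intro k y
    by_cases hk : Good (g k)
    · obtain ⟨C, h⟩ := a2 (g k) (hM k) hk (q k y)
      exact ⟨C, fun _ => h⟩
    · exact ⟨0, fun h => absurd h hk⟩
  choose C2 hC2 using hgd
  set Cc : ℕ → ℕ := fun y => ∑ k ∈ Finset.range K, (C1 k y + C2 k y) with hCc
  have hC1c : ∀ k < K, ∀ y, C1 k y + C2 k y ≤ Cc y := by
    intro k hk y
    exact Finset.single_le_sum (f := fun k => C1 k y + C2 k y) (fun i _ => Nat.zero_le _)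
      (Finset.mem_range.2 hk)
  have F1 : ∀ k < K, ∀ y, ∀ c, Cc y ≤ c → gl (g k) (hi (bits y)) c = q k y := by
    intro k hk y c hc
    exact hq k y c (by have := hC1c k hk y; omega)
  have F2 : ∀ k < K, ∀ y, Good (g k) → ∀ a, Cc y ≤ a → ∀ c, a < c → q k y < gl (g k) a c := by
    intro k hk y hG a ha c hc
    exact hC2 k y hG a (by have := hC1c k hk y; omega) c hc
  have F3 : ∀ k < K, ∀ y, ¬ Good (g k) → T k ≤ hi (bits y) → q k y = b k := by
    intro k hk y hG hT
    obtain ⟨-, C, hC⟩ := hbT k hG _ hT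
    rw [← hC (max C (C1 k y)) (le_max_left _ _), hq k y _ (le_max_right _ _)]
  -- the sequence
  choose nx hnxY hnx0 hnxd using hY
  let y : ℕ → ℕ := fun n => Nat.rec (nx T') (fun _ p => nx (p + Cc p)) n
  have y0 : y 0 = nx T' := rfl
  have ys : ∀ n, y (n + 1) = nx (y n + Cc (y n)) := fun n => rfl
  have yY : ∀ n, y n ∈ Y := by
    intro n
    cases n with
    | zero => exact hnxY _
    | succ n => exact hnxY _
  have ypos : ∀ n, 0 < y n := by
    intro n
    cases n with
    | zero => exact hnx0 _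
    | succ n => exact hnx0 _
  have ydv1 : ∀ n, 2 ^ (y n + Cc (y n)) ∣ y (n + 1) := fun n => hnxd _
  have lt_of_dvd : ∀ m n, 0 < n → 2 ^ m ∣ n → m < n := by
    intro m n hn hd
    exact lt_of_lt_of_le Nat.lt_two_pow_self (Nat.le_of_dvd hn hd)
  have ydv : ∀ i j, i < j → 2 ^ (y i + Cc (y i)) ∣ y j := by
    intro i j hij
    induction j, hij using Nat.le_induction with
    | base => exact ydv1 i
    | succ j hj ih =>
      have h := lt_of_dvd _ _ (ypos j) ih
      exact (pow_dvd_pow 2 (by omega)).trans (ydv1 j)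
  have yT : ∀ n, 2 ^ T' ∣ y n := by
    intro n
    cases n with
    | zero => exact hnxd _
    | succ n =>
      have h0 : 2 ^ T' ∣ y 0 := hnxd _
      have h := lt_of_dvd _ _ (ypos 0) h0
      exact (pow_dvd_pow 2 (by omega)).trans (ydv 0 (n + 1) (by omega))
  -- types
  let ty : ℕ → (Fin K → Fin 3 × Bool × Bool) := fun n k =>
    (⟨nd (rw (g k) (y n)) % 3, Nat.mod_lt _ (by norm_num)⟩,
      decide (b k ∈ rw (g k) (y n)),
      decide (nd (q k (y n) :: rw (g k) (y n)) = nd (rw (g k) (y n)) + 1))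
  obtain ⟨t, ht⟩ := Finite.exists_infinite_fiber ty
  have hinf : (ty ⁻¹' {t}).Infinite := Set.infinite_coe_iff.1 ht
  obtain ⟨n₁, hn₁⟩ := hinf.nonempty
  obtain ⟨n₂, hn₂, h12⟩ := hinf.exists_gt n₁
  obtain ⟨n₃, hn₃, h23⟩ := hinf.exists_gt n₂
  have e12 : ty n₁ = ty n₂ := (show ty n₁ = t from hn₁).trans (show ty n₂ = t from hn₂).symm
  have e13 : ty n₁ = ty n₃ := (show ty n₁ = t from hn₁).trans (show ty n₃ = t from hn₃).symm
  have d12 := ydv n₁ n₂ h12
  have d13 := ydv n₁ n₃ (h12.trans h23)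
  have d23 := ydv n₂ n₃ h23
  have p1 := ypos n₁
  have p2 := ypos n₂
  have p3 := ypos n₃
  refine ⟨y n₁, yY _, y n₂, yY _, y n₃, yY _, p1, p2, p3,
    (pow_dvd_pow 2 (by omega)).trans (yT n₁), (pow_dvd_pow 2 (by omega)).trans d12,
    (pow_dvd_pow 2 (by omega)).trans d23, ?_⟩
  intro k hk
  have lt12 := lt_of_dvd _ _ p2 d12
  have lt23 := lt_of_dvd _ _ p3 d23
  have hx1 : y n₁ < 2 ^ (y n₁) := Nat.lt_two_pow_self
  have hdd1 : 2 ^ (y n₁) ∣ y n₂ := (pow_dvd_pow 2 (by omega)).trans d12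
  have hx2 : y n₁ + y n₂ < 2 ^ (y n₂) := by
    have := two_mul_le p2
    omega
  have hdd2 : 2 ^ (y n₂) ∣ y n₃ := (pow_dvd_pow 2 (by omega)).trans d23
  have w1 := b2 (g k) (y n₁) (y n₂) (y n₁) p1 p2 hx1 hdd1
  have w2 := b2 (g k) (y n₁ + y n₂) (y n₃) (y n₂) (by omega) p3 hx2 hdd2
  have lo2 : Cc (y n₁) ≤ lo (bits (y n₂)) := by
    have := le_of_mem_bits d12 (lo_mem (bits_ne_nil p2))
    omega
  have lo3 : Cc (y n₂) ≤ lo (bits (y n₃)) := by
    have := le_of_mem_bits d23 (lo_mem (bits_ne_nil p3))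
    omega
  rw [F1 k hk _ _ lo2] at w1
  have hhi : hi (bits (y n₁ + y n₂)) = hi (bits (y n₂)) := by
    rw [bits_add hx1 hdd1]
    exact hi_append (bits_ne_nil p2)
  rw [hhi, F1 k hk _ _ lo3, w1] at w2
  have tyk2 := congrFun e12 ⟨k, hk⟩
  have tyk3 := congrFun e13 ⟨k, hk⟩
  simp only [ty, Prod.mk.injEq, Fin.mk.injEq, decide_eq_decide] at tyk2 tyk3
  obtain ⟨m12, b12, c12⟩ := tyk2
  obtain ⟨m13, b13, c13⟩ := tyk3
  unfold cnt
  rw [w2]
  set r1 := rw (g k) (y n₁) with hr1
  set r2 := rw (g k) (y n₂) with hr2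
  set r3 := rw (g k) (y n₃) with hr3
  by_cases hG : Good (g k)
  · -- good case
    have l2 : ∀ x ∈ r2, q k (y n₁) < x := by
      intro x hx
      obtain ⟨a, ha, c, _, hac, rfl⟩ := b1 (g k) (y n₂) x hx
      have := le_of_mem_bits d12 ha
      exact F2 k hk _ hG a (by omega) c hac
    have l3 : ∀ x ∈ r3, q k (y n₂) < x := by
      intro x hx
      obtain ⟨a, ha, c, _, hac, rfl⟩ := b1 (g k) (y n₃) x hx
      have := le_of_mem_bits d23 ha
      exact F2 k hk _ hG a (by omega) c hac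
    have q12 : q k (y n₁) < q k (y n₂) := by
      have h1 := F1 k hk (y n₂) (Cc (y n₂) + hi (bits (y n₂)) + 1) (by omega)
      rw [← h1]
      have := le_of_mem_bits d12 (hi_mem (bits_ne_nil p2))
      exact F2 k hk _ hG _ (by omega) _ (by omega)
    have e1 := n1 (q k (y n₂)) (r2 ++ q k (y n₁) :: r1) r3 l3
    have e2 := n1 (q k (y n₁)) r1 (q k (y n₂) :: r2) (by
      intro x hx
      rcases List.mem_cons.1 hx with h | h
      · rw [h]; exact q12
      · exact l2 x h)
    rw [List.cons_append] at e2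
    rw [nd_cons (q k (y n₁)) r1] at e2 c12
    rw [nd_cons (q k (y n₂)) r2] at e2 c12
    have k1 := ctr_le (q k (y n₁)) r1
    have k2 := ctr_le (q k (y n₂)) r2
    have ke : ctr (q k (y n₁)) r1 = ctr (q k (y n₂)) r2 := by
      by_cases h : ctr (q k (y n₁)) r1 = 1
      · have := c12.1 (by omega)
        omega
      · have h' : ¬ ctr (q k (y n₂)) r2 = 1 := fun h2 => h (by
          have := c12.2 (by omega)
          omega)
        omega
    constructor
    · intro h; exfalso; omega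
    · intro h; exact absurd hG h
  · -- bad case
    have hpos : ∀ n, ∀ a ∈ bits (y n), T k ≤ a := by
      intro n a ha
      have := le_of_mem_bits (yT n) ha
      have := hTk k hk
      omega
    have hqb : ∀ n, q k (y n) = b k := fun n =>
      F3 k hk _ hG (hpos n _ (hi_mem (bits_ne_nil (ypos n))))
    have hl : ∀ n, ∀ x ∈ rw (g k) (y n), b k ≤ x := by
      intro n x hx
      obtain ⟨a, ha, c, _, hac, rfl⟩ := b1 (g k) (y n) x hx
      exact (hbT k hG a (hpos n a ha)).1 c hac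
    rw [hqb, hqb]
    have hu : ∀ x ∈ r2 ++ b k :: r1, b k ≤ x := by
      intro x hx
      rcases List.mem_append.1 hx with h | h
      · exact hl _ x h
      · rcases List.mem_cons.1 h with h | h
        · exact h.ge
        · exact hl _ x h
    have hbu : b k ∈ r2 ++ b k :: r1 := by simp
    have e1 := n2 (b k) (r2 ++ b k :: r1) r3 hu (hl n₃) hbu
    constructor
    · intro _; exact hG
    · intro _
      by_cases hb : b k ∈ r1
      · have hb2 : b k ∈ r2 := b12.1 hb
        have hb3 : b k ∈ r3 := b13.1 hb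
        have e2 := n2 (b k) r1 r2 (hl n₁) (hl n₂) hb
        rw [if_pos hb2] at e2
        rw [if_pos hb3] at e1
        omega
      · have hb2 : b k ∉ r2 := fun h => hb (b12.2 h)
        have hb3 : b k ∉ r3 := fun h => hb (b13.2 h)
        rw [if_neg hb3] at e1
        have hlt : ∀ n, b k ∉ rw (g k) (y n) → ∀ x ∈ rw (g k) (y n), b k < x := by
          intro n hn x hx
          exact lt_of_le_of_ne (hl n x hx) (fun h => hn (h ▸ hx))
        have e2 := n1 (b k) r1 r2 (hlt n₂ hb2)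
        have e3 := n3 (b k) r1 (hlt n₁ hb)
        omega

end Pool.Agent.Work.MP_69fea5_lc.S4
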