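import Pool.Agent.Work.MP_69fea5_lc.S4.Stmts

set_option autoImplicit false

/-! The colouring: the start of the visible part is a position (D1), and at the least hit the
colour is flipped (D2). -/

namespace Pool.Agent.Work.MP_69fea5_lc.S4

namespace ID

lemma st_succ (tg : ℕ → ℕ → ℕ) (b N : ℕ) : St tg (b + 1) N =
    if N.testBit b = true then
      if N % 2 ^ b = 0 then (b, false) else
        match hitm tg b N (St tg b N).1 with
        | none => St tg b N
        | some m => (b, !(xor (St tg b N).2 (St tg b (tg m (N - N % 2 ^ b) + (N - N % 2 ^ b))).2))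
    else St tg b N := rfl

lemma st_false (tg : ℕ → ℕ → ℕ) (b N : ℕ) (h : N.testBit b = false) :
    St tg (b + 1) N = St tg b N := by
  rw [st_succ, if_neg (by rw [h]; simp)]

lemma st_zero (tg : ℕ → ℕ → ℕ) (b N : ℕ) (h : N.testBit b = true) (h0 : N % 2 ^ b = 0) :
    St tg (b + 1) N = (b, false) := by
  rw [st_succ, if_pos h, if_pos h0]

lemma st_none (tg : ℕ → ℕ → ℕ) (b N : ℕ) (h : N.testBit b = true) (h0 : N % 2 ^ b ≠ 0)
    (hh : hitm tg b N (St tg b N).1 = none) :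
    St tg (b + 1) N = St tg b N := by
  rw [st_succ, if_pos h, if_neg h0, hh]

lemma st_some (tg : ℕ → ℕ → ℕ) (b N m : ℕ) (h : N.testBit b = true) (h0 : N % 2 ^ b ≠ 0)
    (hh : hitm tg b N (St tg b N).1 = some m) :
    St tg (b + 1) N =
      (b, !(xor (St tg b N).2 (St tg b (tg m (N - N % 2 ^ b) + (N - N % 2 ^ b))).2)) := by
  rw [st_succ, if_pos h, if_neg h0, hh]

lemma mod_add {x Z b l : ℕ} (hZ : 2 ^ b ∣ Z) (hx : x < 2 ^ b) (hl : b ≤ l) :
    (x + Z) % 2 ^ l = x + Z % 2 ^ l := by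
  have h1 : 2 ^ b ∣ 2 ^ l := pow_dvd_pow 2 hl
  have h2 : 2 ^ b ∣ Z % 2 ^ l := (Nat.dvd_mod_iff h1).mpr hZ
  obtain ⟨u, hu⟩ := h2
  obtain ⟨v, hv⟩ := h1
  have h3 : Z % 2 ^ l < 2 ^ l := Nat.mod_lt _ (by positivity)
  have h4 : u < v := by
    rw [hu, hv] at h3
    exact Nat.lt_of_mul_lt_mul_left h3
  have h5 : 2 ^ b * (u + 1) ≤ 2 ^ b * v := Nat.mul_le_mul_left _ h4
  have h6 : x + Z % 2 ^ l < 2 ^ l := by
    rw [hu, hv]
    rw [Nat.mul_add, Nat.mul_one] at h5
    omega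
  rw [← Nat.mod_eq_of_lt h6, Nat.add_mod_mod]

lemma testBit_add {x Z b i : ℕ} (hZ : 2 ^ b ∣ Z) (hx : x < 2 ^ b) (hi : b ≤ i) :
    (x + Z).testBit i = Z.testBit i := by
  obtain ⟨z, rfl⟩ := hZ
  rw [Nat.add_comm, Nat.testBit_two_pow_mul_add _ hx, if_neg (not_lt.mpr hi),
    Nat.testBit_two_pow_mul]
  simp [hi]

lemma mod_ne_zero {N b l : ℕ} (h : N.testBit b = true) (hl : b < l) : N % 2 ^ l ≠ 0 := by
  intro h0
  have h1 : (N % 2 ^ l).testBit b = true := by
    rw [Nat.testBit_mod_two_pow]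
    simp [hl, h]
  rw [h0] at h1
  simp at h1

lemma stab (tg : ℕ → ℕ → ℕ) (N b : ℕ) (h : N < 2 ^ b) (d : ℕ) : St tg (b + d) N = St tg b N := by
  induction d with
  | zero => rfl
  | succ d ih =>
    rw [← Nat.add_assoc, st_false, ih]
    exact Nat.testBit_lt_two_pow (lt_of_lt_of_le h (Nat.pow_le_pow_right (by norm_num) (by omega)))

lemma co_eq (tg : ℕ → ℕ → ℕ) (N b : ℕ) (h : N ≤ b) : co tg N = (St tg b N).2 := by
  obtain ⟨d, rfl⟩ := Nat.exists_eq_add_of_le h
  rw [stab tg N N Nat.lt_two_pow_self d]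
  rfl

lemma hit_congr (tg : ℕ → ℕ → ℕ) {x Z b b' l : ℕ} (hZ : 2 ^ b ∣ Z) (hx : x < 2 ^ b) (hb : b ≤ b')
    (hl : b ≤ l) (m : ℕ) : hit tg b' (x + Z) l m = hit tg b' Z l m := by
  have h1 : x + Z - (x + Z) % 2 ^ b' = Z - Z % 2 ^ b' := by
    rw [mod_add hZ hx hb]; omega
  have h2 : (x + Z) % 2 ^ b' - (x + Z) % 2 ^ l = Z % 2 ^ b' - Z % 2 ^ l := by
    rw [mod_add hZ hx hb, mod_add hZ hx hl]; omega
  unfold hit
  rw [h1, h2]

lemma hitm_congr (tg : ℕ → ℕ → ℕ) {x Z b b' l : ℕ} (hZ : 2 ^ b ∣ Z) (hx : x < 2 ^ b) (hb : b ≤ b')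
    (hl : b ≤ l) : hitm tg b' (x + Z) l = hitm tg b' Z l := by
  unfold hitm
  congr 1
  funext m
  exact hit_congr tg hZ hx hb hl m

lemma par (tg : ℕ → ℕ → ℕ) {x Z b : ℕ} (hZ : 2 ^ b ∣ Z) (hx : x < 2 ^ b)
    (hb : Z.testBit b = true)
    (h0 : St tg (b + 1) (x + Z) = (b, true)) (h1 : St tg (b + 1) Z = (b, false)) (d : ℕ) :
    (St tg (b + 1 + d) (x + Z)).1 = (St tg (b + 1 + d) Z).1 ∧ b ≤ (St tg (b + 1 + d) Z).1 ∧
      (St tg (b + 1 + d) (x + Z)).2 = !(St tg (b + 1 + d) Z).2 := by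
  induction d with
  | zero => rw [Nat.add_zero, h0, h1]; exact ⟨rfl, le_refl _, rfl⟩
  | succ d ih =>
    obtain ⟨i1, i2, i3⟩ := ih
    have hbd : b ≤ b + 1 + d := by omega
    have hbd' : b < b + 1 + d := by omega
    rw [← Nat.add_assoc]
    generalize hb' : b + 1 + d = b' at *
    have ht : (x + Z).testBit b' = Z.testBit b' := testBit_add hZ hx hbd
    by_cases hc : Z.testBit b' = true
    · have hc' : (x + Z).testBit b' = true := by rw [ht, hc]
      have hz1 : Z % 2 ^ b' ≠ 0 := mod_ne_zero hb hbd'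
      have hz2 : (x + Z) % 2 ^ b' ≠ 0 := mod_ne_zero
        (by rw [testBit_add hZ hx (le_refl b), hb]) hbd'
      have hh : hitm tg b' (x + Z) (St tg b' (x + Z)).1 = hitm tg b' Z (St tg b' Z).1 := by
        rw [i1]; exact hitm_congr tg hZ hx hbd i2
      have hs : x + Z - (x + Z) % 2 ^ b' = Z - Z % 2 ^ b' := by
        rw [mod_add hZ hx hbd]; omega
      cases hm : hitm tg b' Z (St tg b' Z).1 with
      | none =>
        rw [st_none tg b' Z hc hz1 hm, st_none tg b' (x + Z) hc' hz2 (by rw [hh, hm])]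
        exact ⟨i1, i2, i3⟩
      | some m =>
        rw [st_some tg b' Z m hc hz1 hm, st_some tg b' (x + Z) m hc' hz2 (by rw [hh, hm])]
        refine ⟨rfl, hbd, ?_⟩
        simp only
        rw [hs, i3]
        cases (St tg b' Z).2 <;> cases (St tg b' (tg m (Z - Z % 2 ^ b') + (Z - Z % 2 ^ b'))).2 <;>
          rfl
    · have hc1 : Z.testBit b' = false := by simpa using hc
      rw [st_false tg b' Z hc1, st_false tg b' (x + Z) (by rw [ht, hc1])]
      exact ⟨i1, i2, i3⟩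

end ID

theorem d1 : D1 := by
  intro tg b N
  induction b with
  | zero => intro h; exact absurd (Nat.mod_one N) (by simpa using h)
  | succ b ih =>
    intro h
    by_cases hc : N.testBit b = true
    · by_cases h0 : N % 2 ^ b = 0
      · rw [ID.st_zero tg b N hc h0]
        exact ⟨hc, Nat.lt_succ_self b⟩
      · cases hm : hitm tg b N (St tg b N).1 with
        | none =>
          rw [ID.st_none tg b N hc h0 hm]
          exact ⟨(ih h0).1, Nat.lt_succ_of_lt (ih h0).2⟩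
        | some m =>
          rw [ID.st_some tg b N m hc h0 hm]
          exact ⟨hc, Nat.lt_succ_self b⟩
    · have hc1 : N.testBit b = false := by simpa using hc
      have h2 : N % 2 ^ (b + 1) = N % 2 ^ b := by
        apply Nat.eq_of_testBit_eq
        intro i
        rw [Nat.testBit_mod_two_pow, Nat.testBit_mod_two_pow]
        by_cases hib : i = b
        · subst hib; simp [hc1]
        · congr 1
          have : i < b + 1 ↔ i < b := by omega
          simp [this]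
      rw [h2] at h
      rw [ID.st_false tg b N hc1]
      exact ⟨(ih h).1, Nat.lt_succ_of_lt (ih h).2⟩

theorem d2 : D2 := by
  intro tg b Z x m hZ hb hx0 hx hm ht
  have hW : (x + Z) % 2 ^ b = x := by
    rw [ID.mod_add hZ hx (le_refl b), Nat.mod_eq_zero_of_dvd hZ, Nat.add_zero]
  have hWb : (x + Z).testBit b = true := by rw [ID.testBit_add hZ hx (le_refl b), hb]
  have h0 : St tg (b + 1) (x + Z) = (b, true) := by
    rw [ID.st_some tg b (x + Z) m hWb (by rw [hW]; omega) hm, hW]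
    have e1 : x + Z - x = Z := by omega
    rw [e1, ht]
    simp
  have h1 : St tg (b + 1) Z = (b, false) :=
    ID.st_zero tg b Z hb (Nat.mod_eq_zero_of_dvd hZ)
  obtain ⟨-, -, h3⟩ := ID.par tg hZ hx hb h0 h1 (x + Z)
  rw [ID.co_eq tg (x + Z) (b + 1 + (x + Z)) (by omega),
    ID.co_eq tg Z (b + 1 + (x + Z)) (by omega), h3]

end Pool.Agent.Work.MP_69fea5_lc.S4
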