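import Pool.Agent.Work.MP_69fea5_lc.S4.Stmts

set_option autoImplicit false

/-! Item E: one of the targets is flipped. -/

namespace Pool.Agent.Work.MP_69fea5_lc.S4

open Pool.Agent.Work.MP_69fea5_lc.DJ

theorem log2_of_top {x y l : ℕ} (hl : 2 ^ l ≤ x) (h : y - y % 2 ^ l = x - x % 2 ^ l) :
    Nat.log2 y = Nat.log2 x := by
  have hp : 0 < 2 ^ l := Nat.two_pow_pos l
  have hd : y / 2 ^ l = x / 2 ^ l := by
    have h1 := Nat.div_add_mod y (2 ^ l)
    have h2 := Nat.div_add_mod x (2 ^ l)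
    have h3 : 2 ^ l * (y / 2 ^ l) = 2 ^ l * (x / 2 ^ l) := by omega
    exact Nat.eq_of_mul_eq_mul_left hp h3
  have hx0 : x ≠ 0 := by omega
  set t := Nat.log2 x with ht
  obtain ⟨h1, h2⟩ := (Nat.log2_eq_iff hx0).1 ht.symm
  have htl : l ≤ t := by
    by_contra hc
    have h3 : 2 ^ (t + 1) ≤ 2 ^ l := Nat.pow_le_pow_right (by norm_num) (by omega)
    omega
  obtain ⟨s, hs⟩ := Nat.exists_eq_add_of_le htl
  have e1 : 2 ^ t = 2 ^ s * 2 ^ l := by rw [hs, pow_add, mul_comm]
  have e2 : 2 ^ (t + 1) = 2 ^ (s + 1) * 2 ^ l := by rw [hs, pow_add, pow_add, pow_add]; ring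
  have h3 : 2 ^ s ≤ x / 2 ^ l := (Nat.le_div_iff_mul_le hp).2 (by rw [← e1]; exact h1)
  have h4 : x / 2 ^ l < 2 ^ (s + 1) := (Nat.div_lt_iff_lt_mul hp).2 (by rw [← e2]; exact h2)
  rw [← hd] at h3 h4
  have h5 : 2 ^ t ≤ y := by rw [e1]; exact (Nat.le_div_iff_mul_le hp).1 h3
  have h6 : y < 2 ^ (t + 1) := by rw [e2]; exact (Nat.div_lt_iff_lt_mul hp).1 h4
  have hy0 : y ≠ 0 := by
    have := Nat.two_pow_pos t
    omega
  exact (Nat.log2_eq_iff hy0).2 ⟨h5, h6⟩

theorem e_of (d1 : D1) (d2 : D2) : E := by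
  intro tg e b Z x hbZ hZb heb h0 hx hlog
  by_contra hcon
  push Not at hcon
  have key : ∀ i < 2 ^ e, ∃ m, 0 < m ∧ m < 2 ^ e ∧ Nat.log2 (tg m Z) = Nat.log2 (x i) := by
    intro i hi
    obtain ⟨hx0, hxb, hxt⟩ := hx i hi
    have hW : (x i + Z) % 2 ^ b = x i := by
      rw [Nat.add_mod, Nat.mod_eq_zero_of_dvd hbZ, add_zero, Nat.mod_mod, Nat.mod_eq_of_lt hxb]
    have hWs : x i + Z - (x i + Z) % 2 ^ b = Z := by rw [hW]; omega
    obtain ⟨ht, hlb⟩ := d1 tg b (x i + Z) (by rw [hW]; omega)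
    set l := (St tg b (x i + Z)).1 with hl
    have hxl : (x i).testBit l = true := by
      have h1 := Nat.testBit_mod_two_pow (x i + Z) b l
      rw [hW, ht] at h1
      rw [h1]
      simp [hlb]
    have hle : 2 ^ l ≤ x i := by
      by_contra hc
      rw [Nat.testBit_eq_false_of_lt (not_le.1 hc)] at hxl
      exact Bool.false_ne_true hxl
    have hWl : (x i + Z) % 2 ^ l = x i % 2 ^ l := by
      rw [Nat.add_mod, Nat.mod_eq_zero_of_dvd ((Nat.pow_dvd_pow 2 hlb.le).trans hbZ), add_zero,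
        Nat.mod_mod]
    have hhit : ∀ m, hit tg b (x i + Z) l m = true ↔
        (0 < tg m Z ∧ tg m Z < 2 ^ b ∧ tg m Z - tg m Z % 2 ^ l = x i - x i % 2 ^ l) := by
      intro m
      unfold hit
      rw [hWs, hW, hWl, decide_eq_true_iff]
    have hm : hit tg b (x i + Z) l (2 ^ e + i) = true := by
      rw [hhit, hxt]
      exact ⟨hx0, hxb, rfl⟩
    have hlt : 2 ^ e + i < 2 ^ (b + 1) := by
      have h1 : 2 ^ e ≤ 2 ^ b := Nat.pow_le_pow_right (by norm_num) heb
      have h2 : 2 ^ (b + 1) = 2 ^ b + 2 ^ b := by rw [pow_succ]; ring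
      omega
    have hsome : ∃ m, hitm tg b (x i + Z) l = some m := by
      unfold hitm
      rcases hf : (List.range (2 ^ (b + 1))).find? (fun m => hit tg b (x i + Z) l m) with _ | m
      · exfalso
        rw [List.find?_eq_none] at hf
        exact hf (2 ^ e + i) (List.mem_range.2 hlt) hm
      · exact ⟨m, rfl⟩
    obtain ⟨m, hmm⟩ := hsome
    have hprop : hit tg b (x i + Z) l m = true ∧ m < 2 ^ (b + 1) ∧
        ∀ j < m, hit tg b (x i + Z) l j = false := by
      unfold hitm at hmm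
      rw [List.find?_range_eq_some] at hmm
      refine ⟨hmm.1, List.mem_range.1 hmm.2.1, fun j hj => ?_⟩
      have := hmm.2.2 j hj
      simpa using this
    obtain ⟨p1, p2, p3⟩ := hprop
    have hmle : m ≤ 2 ^ e + i := by
      by_contra hc
      rw [p3 _ (not_le.1 hc)] at hm
      exact Bool.false_ne_true hm
    obtain ⟨q1, q2, q3⟩ := (hhit m).1 p1
    have hlg := log2_of_top hle q3
    have hne : m ≠ 2 ^ e + i := by
      intro hc
      exact hcon i hi (d2 tg b Z (x i) m hbZ hZb hx0 hxb hmm (by rw [hc, hxt]))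
    have hm0 : 0 < m := by
      rcases Nat.eq_zero_or_pos m with h | h
      · rw [h, h0] at q1
        exact absurd q1 (lt_irrefl _)
      · exact h
    have hme : m < 2 ^ e := by
      by_contra hc
      obtain ⟨j, hj⟩ := Nat.exists_eq_add_of_le (not_lt.1 hc)
      have hji : j < i := by omega
      have h1 := (hx j (by omega)).2.2
      rw [hj, h1] at hlg
      exact hlog j (by omega) i hi (by omega) hlg
    exact ⟨m, hm0, hme, hlg⟩
  choose! m hm0 hme hlg using key
  have hcard : (Finset.Ico 1 (2 ^ e)).card < (Finset.range (2 ^ e)).card := by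
    rw [Nat.card_Ico, Finset.card_range]
    have := Nat.two_pow_pos e
    omega
  obtain ⟨i, hi, j, hj, hij, hmij⟩ := Finset.exists_ne_map_eq_of_card_lt_of_maps_to hcard
    (f := m) (fun i hi => by
      have h1 := Finset.mem_range.1 hi
      exact Finset.mem_coe.2 (Finset.mem_Ico.2 ⟨hm0 i h1, hme i h1⟩))
  have hi' := Finset.mem_range.1 hi
  have hj' := Finset.mem_range.1 hj
  refine hlog i hi' j hj' hij ?_
  rw [← hlg i hi', ← hlg j hj', hmij]

end Pool.Agent.Work.MP_69fea5_lc.S4
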