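import Pool.Agent.Work.MP_69fea5_lc.S4.Stmts

set_option autoImplicit false

/-! Item F: the environment of a code. -/

namespace Pool.Agent.Work.MP_69fea5_lc.S4

open Pool.Agent.Work.MP_69fea5_lc.DJ

theorem ref_iff (e k j u t : ℕ) : ref e k j u t = true ↔ ∃ l ≤ t,
    Nat.Partrec.Code.evaln t (Denumerable.ofNat Nat.Partrec.Code e)
      (Nat.pair e (Nat.pair k (Nat.pair j (Nat.pair u l)))) = some 0 := by
  unfold ref
  simp only [List.any_eq_true, List.mem_range, decide_eq_true_eq]
  constructor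
  · rintro ⟨l, hl, h⟩
    exact ⟨l, by omega, h⟩
  · rintro ⟨l, hl, h⟩
    exact ⟨l, by omega, h⟩

theorem ref_mono {e k j u t t' : ℕ} (h : t ≤ t') (hr : ref e k j u t = true) :
    ref e k j u t' = true := by
  rw [ref_iff] at hr ⊢
  obtain ⟨l, hl, h1⟩ := hr
  exact ⟨l, hl.trans h, Nat.Partrec.Code.evaln_mono h h1⟩

theorem gg_spec (e k j t : ℕ) : (∀ u < gg e k j t, u ≤ t ∧ ref e k j u t = true) ∧
    gg e k j t ≤ t + 1 ∧ (gg e k j t ≤ t → ref e k j (gg e k j t) t = false) := by
  unfold gg
  cases hf : (List.range (t + 1)).find? (fun u => !ref e k j u t) with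
  | none =>
    simp only [Option.getD_none]
    rw [List.find?_eq_none] at hf
    refine ⟨fun u hu => ?_, le_refl _, fun h => ?_⟩
    · have := hf u (List.mem_range.2 hu)
      refine ⟨by omega, ?_⟩
      simpa using this
    · omega
  | some v =>
    simp only [Option.getD_some]
    rw [List.find?_range_eq_some] at hf
    obtain ⟨h1, h2, h3⟩ := hf
    rw [List.mem_range] at h2
    refine ⟨fun u hu => ?_, by omega, fun _ => ?_⟩
    · have := h3 u hu
      refine ⟨by omega, ?_⟩
      simpa using this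
    · simpa using h1

theorem f1 : F1 := by
  intro e k j t t' h
  by_contra hc
  rw [not_le] at hc
  obtain ⟨h1, h2⟩ := (gg_spec e k j t).1 _ hc
  have h3 := ref_mono h h2
  have h4 := (gg_spec e k j t').2.2 (by omega)
  rw [h3] at h4
  exact absurd h4 (by simp)

theorem f2 : F2 := by
  intro e k j f hf
  have key : ∀ u, (∃ t, ref e k j u t = true) ↔ ∃ l,
      f (Nat.pair e (Nat.pair k (Nat.pair j (Nat.pair u l)))) = 0 := by
    intro u
    constructor
    · rintro ⟨t, ht⟩
      rw [ref_iff] at ht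
      obtain ⟨l, hl, h⟩ := ht
      have h1 := Nat.Partrec.Code.evaln_sound (k := t) (n := (Nat.pair e (Nat.pair k (Nat.pair j (Nat.pair u l))))) (x := 0) h
      rw [hf] at h1
      simp at h1
      exact ⟨l, h1.symm⟩
    · rintro ⟨l, hl⟩
      have h1 : (0 : ℕ) ∈ (Denumerable.ofNat Nat.Partrec.Code e).eval (Nat.pair e (Nat.pair k (Nat.pair j (Nat.pair u l)))) := by
        rw [hf]
        simp [hl]
      rw [Nat.Partrec.Code.evaln_complete] at h1
      obtain ⟨t, ht⟩ := h1
      refine ⟨max t l, ?_⟩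
      rw [ref_iff]
      exact ⟨l, le_max_right _ _, Nat.Partrec.Code.evaln_mono (le_max_left _ _) ht⟩
  constructor
  · rintro ⟨B, hB⟩
    by_contra hc
    push Not at hc
    have h1 : ∀ u, ∃ t, ref e k j u t = true := fun u => (key u).2 (hc u)
    choose T hT using h1
    have h2 : ∃ t, B ≤ t ∧ ∀ u ≤ B, ref e k j u t = true := by
      refine ⟨B + (Finset.range (B + 1)).sup T, by omega, fun u hu => ?_⟩
      refine ref_mono ?_ (hT u)
      have : T u ≤ (Finset.range (B + 1)).sup T :=
        Finset.le_sup (Finset.mem_range.2 (by omega))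
      omega
    obtain ⟨t, ht, h3⟩ := h2
    have h4 := (gg_spec e k j t).2.2 (by have := hB t; omega)
    rw [h3 _ (hB t)] at h4
    exact absurd h4 (by simp)
  · rintro ⟨u, hu⟩
    refine ⟨u + 1, fun t => ?_⟩
    by_contra hc
    rw [not_le] at hc
    obtain ⟨h1, h2⟩ := (gg_spec e k j t).1 u (by omega)
    obtain ⟨l, hl⟩ := (key u).1 ⟨t, h2⟩
    exact hu l hl

end Pool.Agent.Work.MP_69fea5_lc.S4
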