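import Pool.Agent.Work.MP_69fea5_lc.S4.Stmts

set_option autoImplicit false

/-! G1: the environment `gg` is primitive recursive. -/

namespace Pool.Agent.Work.MP_69fea5_lc.S4

open Pool.Agent.Work.MP_69fea5_lc.DJ Primrec Nat.Partrec

lemma G1.ref_iff (e k j u t : ℕ) : ref e k j u t = true ↔
    ∃ l < t + 1, Code.evaln t (Denumerable.ofNat Code e)
      (Nat.pair e (Nat.pair k (Nat.pair j (Nat.pair u l)))) = some 0 := by
  simp [ref, List.any_eq_true]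

lemma G1.pr_ref : PrimrecPred fun t : ((ℕ × ℕ) × ℕ × ℕ) × ℕ =>
    ref t.1.1.1 t.1.1.2 t.1.2.1 t.2 t.1.2.2 = true := by
  have h : PrimrecPred fun t : ((ℕ × ℕ) × ℕ × ℕ) × ℕ => ∃ l < t.1.2.2 + 1,
      Code.evaln t.1.2.2 (Denumerable.ofNat Code t.1.1.1)
        (Nat.pair t.1.1.1 (Nat.pair t.1.1.2 (Nat.pair t.1.2.1 (Nat.pair t.2 l)))) = some 0 := by
    refine pp_exists (R := fun (t : ((ℕ × ℕ) × ℕ × ℕ) × ℕ) l =>
      Code.evaln t.1.2.2 (Denumerable.ofNat Code t.1.1.1)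
        (Nat.pair t.1.1.1 (Nat.pair t.1.1.2 (Nat.pair t.1.2.1 (Nat.pair t.2 l)))) = some 0) ?_
      (succ.comp (snd.comp (snd.comp fst)))
    have he : Primrec fun t : (((ℕ × ℕ) × ℕ × ℕ) × ℕ) × ℕ => t.1.1.1.1 :=
      fst.comp (fst.comp (fst.comp fst))
    have hk : Primrec fun t : (((ℕ × ℕ) × ℕ × ℕ) × ℕ) × ℕ => t.1.1.1.2 :=
      snd.comp (fst.comp (fst.comp fst))
    have hj : Primrec fun t : (((ℕ × ℕ) × ℕ × ℕ) × ℕ) × ℕ => t.1.1.2.1 :=
      fst.comp (snd.comp (fst.comp fst))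
    have hT : Primrec fun t : (((ℕ × ℕ) × ℕ × ℕ) × ℕ) × ℕ => t.1.1.2.2 :=
      snd.comp (snd.comp (fst.comp fst))
    have hu : Primrec fun t : (((ℕ × ℕ) × ℕ × ℕ) × ℕ) × ℕ => t.1.2 := snd.comp fst
    have hl : Primrec fun t : (((ℕ × ℕ) × ℕ × ℕ) × ℕ) × ℕ => t.2 := snd
    refine Primrec.eq.comp (Code.primrec_evaln.comp
      ((hT.pair ((Primrec.ofNat Code).comp he)).pair (Primrec₂.natPair.comp he
        (Primrec₂.natPair.comp hk (Primrec₂.natPair.comp hj (Primrec₂.natPair.comp hu hl))))))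
      (Primrec.const (some 0))
  exact h.of_eq (fun t => (G1.ref_iff _ _ _ _ _).symm)

theorem g1 : G1 := by
  have hf : Primrec fun t : (ℕ × ℕ) × ℕ × ℕ => List.range (t.2.2 + 1) :=
    list_range.comp (succ.comp (snd.comp snd))
  have hp : PrimrecPred fun t : ((ℕ × ℕ) × ℕ × ℕ) × ℕ =>
      ¬ ref t.1.1.1 t.1.1.2 t.1.2.1 t.2 t.1.2.2 = true := G1.pr_ref.not
  have h := pr_filter hf (p := fun (t : (ℕ × ℕ) × ℕ × ℕ) u =>
    ¬ ref t.1.1 t.1.2 t.2.1 u t.2.2 = true) hp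
  have h2 : Primrec fun t : (ℕ × ℕ) × ℕ × ℕ =>
      (((List.range (t.2.2 + 1)).filter (fun u => decide
        (¬ ref t.1.1 t.1.2 t.2.1 u t.2.2 = true))).head?).getD (t.2.2 + 1) :=
    option_getD.comp (list_head?.comp h) (succ.comp (snd.comp snd))
  refine h2.of_eq (fun t => ?_)
  simp only [gg, List.head?_filter]
  congr 2
  funext u
  cases ref t.1.1 t.1.2 t.2.1 u t.2.2 <;> simp

end Pool.Agent.Work.MP_69fea5_lc.S4
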