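import Pool.Agent.Work.MP_69fea5_lc.S4.Stmts

set_option autoImplicit false

/-! G2: the node count is primitive recursive. -/

namespace Pool.Agent.Work.MP_69fea5_lc.S4

open Pool.Agent.Work.MP_69fea5_lc.DJ
open Primrec

section

variable {γ : Type*} [Primcodable γ]

lemma g2_find {f : γ → List ℕ} (hf : Primrec f) {p : γ → ℕ → Prop}
    (hp : PrimrecPred fun t : γ × ℕ => p t.1 t.2) [∀ a x, Decidable (p a x)] :
    Primrec fun a => (f a).find? (fun x => decide (p a x)) := by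
  refine (list_head?.comp (pr_filter hf hp)).of_eq (fun a => ?_)
  rw [List.head?_filter]

lemma g2_gl {g : γ → ℕ → ℕ → ℕ} (hg : Primrec fun t : γ × ℕ × ℕ => g t.1 t.2.1 t.2.2) :
    Primrec fun t : γ × ℕ × ℕ => gl (g t.1) t.2.1 t.2.2 := by
  have hp : PrimrecPred fun u : (γ × ℕ × ℕ) × ℕ =>
      g u.1.1 u.2 u.1.2.1 ≠ g u.1.1 u.2 u.1.2.2 :=
    (Primrec.eq.comp
      (hg.comp ((fst.comp fst).pair (snd.pair (fst.comp (snd.comp fst)))))
      (hg.comp ((fst.comp fst).pair (snd.pair (snd.comp (snd.comp fst)))))).not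
  have h1 := g2_find (f := fun t : γ × ℕ × ℕ => List.range t.2.1)
    (p := fun t j => g t.1 j t.2.1 ≠ g t.1 j t.2.2) (list_range.comp (fst.comp snd)) hp
  exact (option_getD.comp h1 (fst.comp snd)).of_eq (fun t => by unfold gl; rfl)

lemma g2_wd_rec (g : ℕ → ℕ → ℕ) (L : List ℕ) :
    wd g L = List.rec (motive := fun _ => List ℕ) []
      (fun a l IH => (l.head?).casesOn [] (fun b => gl g a b :: IH)) L := by
  induction L with
  | nil => rfl
  | cons a L ih =>
    cases L with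
    | nil => rfl
    | cons b L =>
      rw [wd, ih]
      rfl

lemma g2_wd {g : γ → ℕ → ℕ → ℕ} (hg : Primrec fun t : γ × ℕ × ℕ => g t.1 t.2.1 t.2.2)
    {f : γ → List ℕ} (hf : Primrec f) : Primrec fun c => wd (g c) (f c) := by
  have hstep : Primrec₂ fun (c : γ) (t : ℕ × List ℕ × List ℕ) =>
      (Option.casesOn (t.2.1.head?) [] (fun b => gl (g c) t.1 b :: t.2.2) : List ℕ) := by
    refine option_casesOn (list_head?.comp (fst.comp (snd.comp snd))) (const []) ?_
    have h1 : Primrec fun (u : (γ × ℕ × List ℕ × List ℕ) × ℕ) => gl (g u.1.1) u.1.2.1 u.2 :=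
      (g2_gl hg).comp ((fst.comp fst).pair ((fst.comp (snd.comp fst)).pair snd))
    exact list_cons.comp h1 (snd.comp (snd.comp (snd.comp fst)))
  have h2 := list_rec (f := f) (g := fun _ => ([] : List ℕ)) hf (const []) hstep
  refine h2.of_eq (fun n => ?_)
  rw [g2_wd_rec]

lemma g2_ctr : Primrec₂ ctr := by
  have hp : PrimrecPred fun u : (ℕ × List ℕ) × ℕ => u.2 ≤ u.1.1 :=
    nat_le.comp snd (fst.comp fst)
  have h1 := g2_find (f := fun t : ℕ × List ℕ => t.2) (p := fun t x => x ≤ t.1) snd hp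
  have h2 : Primrec fun t : ℕ × List ℕ =>
      (Option.casesOn (t.2.find? (fun x => decide (x ≤ t.1))) 1
        (fun x => if x < t.1 then 1 else 0) : ℕ) := by
    refine option_casesOn h1 (const 1) ?_
    exact Primrec.ite (c := fun u : (ℕ × List ℕ) × ℕ => u.2 < u.1.1)
      (nat_lt.comp snd (fst.comp fst)) (const 1) (const 0)
  refine h2.of_eq (fun t => ?_)
  unfold ctr
  cases t.2.find? (fun x => decide (x ≤ t.1)) <;> rfl

lemma g2_nd : Primrec nd := by
  have hstep : Primrec₂ fun (_ : List ℕ) (t : ℕ × List ℕ × ℕ) => t.2.2 + ctr t.1 t.2.1 :=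
    nat_add.comp (snd.comp (snd.comp snd))
      (g2_ctr.comp (fst.comp snd) (fst.comp (snd.comp snd)))
  have h2 := list_rec (f := fun L : List ℕ => L) (g := fun _ => (0 : ℕ)) Primrec.id (const 0) hstep
  refine h2.of_eq (fun L => ?_)
  induction L with
  | nil => rfl
  | cons a L ih =>
    rw [nd, ← ih]

end

theorem g2_of (g1 : G1) : G2 := by
  have hg : Primrec fun t : ((ℕ × ℕ) × ℕ) × ℕ × ℕ => gg t.1.1.1 t.1.1.2 t.2.1 t.2.2 :=
    Primrec.comp (f := fun t : (ℕ × ℕ) × ℕ × ℕ => gg t.1.1 t.1.2 t.2.1 t.2.2)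
      (g := fun t : ((ℕ × ℕ) × ℕ) × ℕ × ℕ => (t.1.1, t.2)) g1 ((fst.comp fst).pair snd)
  have h1 := g2_wd (γ := (ℕ × ℕ) × ℕ) (g := fun c => gg c.1.1 c.1.2) hg
    (f := fun c => bits c.2) (pr_bits.comp snd)
  exact (g2_nd.comp (list_reverse.comp h1)).of_eq (fun c => rfl)

end Pool.Agent.Work.MP_69fea5_lc.S4
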