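import Pool.Agent.Work.MP_69fea5_lc.S4.Stmts
import Pool.Agent.Work.MP_69fea5_lc.Prim

set_option autoImplicit false

/-! G3: the target function is primitive recursive. -/

namespace Pool.Agent.Work.MP_69fea5_lc.S4

open Pool.Agent.Work.MP_69fea5_lc.DJ

theorem pr_tau (g2 : G2) : Primrec₂ tau := by
  have hp : PrimrecPred fun t : (ℕ × ℕ) × ℕ => cnt (gg t.1.1 t.2) t.1.2 % 3 ≠ 1 := by
    have h1 : Primrec fun t : (ℕ × ℕ) × ℕ => cnt (gg t.1.1 t.2) t.1.2 :=
      (show Primrec fun t : (ℕ × ℕ) × ℕ => cnt (gg t.1.1 t.1.2) t.2 from g2).comp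
        (Primrec.pair (Primrec.pair (Primrec.fst.comp Primrec.fst) Primrec.snd)
          (Primrec.snd.comp Primrec.fst))
    exact PrimrecPred.not (Primrec.eq.comp (Primrec.nat_mod.comp h1 (Primrec.const 3))
      (Primrec.const 1))
  have hf : Primrec fun c : ℕ × ℕ => (List.range c.2).filter
      (fun k => decide (cnt (gg c.1 k) c.2 % 3 ≠ 1)) :=
    pr_filter (γ := ℕ × ℕ) (f := fun c => List.range c.2) (Primrec.list_range.comp Primrec.snd)
      (p := fun c k => cnt (gg c.1 k) c.2 % 3 ≠ 1) hp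
  have h2 : Primrec fun c : ℕ × ℕ => (((List.range c.2).filter
      (fun k => decide (cnt (gg c.1 k) c.2 % 3 ≠ 1))).head?).getD 0 :=
    Primrec.option_getD.comp (Primrec.list_head?.comp hf) (Primrec.const 0)
  refine h2.of_eq ?_
  intro c
  rw [List.head?_filter]
  rfl

theorem pr_lst : Primrec lst :=
  pr_dec.comp (Primrec.fst.comp Primrec.unpair)

theorem pr_log2 : Primrec Nat.log2 :=
  (Pool.Agent.Work.MP_69fea5_lc.primrec_log 2 (by norm_num)).of_eq
    (fun n => (Nat.log2_eq_log_two (n := n)).symm)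

theorem g3_of (g2 : G2) : G3 := by
  have h1 : Primrec fun c : ℕ × ℕ => lst (tau (Nat.log2 c.1) c.2) :=
    pr_lst.comp ((pr_tau g2).comp (pr_log2.comp Primrec.fst) Primrec.snd)
  have h2 : Primrec fun c : ℕ × ℕ => c.1 - 2 ^ Nat.log2 c.1 :=
    Primrec.nat_sub.comp Primrec.fst
      (pr_pow.comp (Primrec.const 2) (pr_log2.comp Primrec.fst))
  have h3 : Primrec fun c : ℕ × ℕ =>
      (lst (tau (Nat.log2 c.1) c.2)).getD (c.1 - 2 ^ Nat.log2 c.1) 0 :=
    (Primrec.list_getD 0).comp h1 h2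
  have h4 : PrimrecPred fun c : ℕ × ℕ => c.1 = 0 := Primrec.eq.comp Primrec.fst (Primrec.const 0)
  exact Primrec.ite h4 (Primrec.const 0) h3

end Pool.Agent.Work.MP_69fea5_lc.S4
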