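import Pool.Agent.Work.MP_69fea5_lc.S4.Stmts

set_option autoImplicit false

/-! Item G4: the colouring associated with a primitive recursive target function is primitive
recursive. -/

namespace Pool.Agent.Work.MP_69fea5_lc.S4

open Pool.Agent.Work.MP_69fea5_lc.DJ

/-- one step of the table of states -/
def stepG (tg : ℕ → ℕ → ℕ) (L : List (ℕ × Bool)) (b N : ℕ) : ℕ × Bool :=
  if N.testBit b = true then
    if N % 2 ^ b = 0 then (b, false) else
      Option.casesOn (hitm tg b N (L.getD N (0, false)).1) (L.getD N (0, false))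
        (fun m => (b, !(xor (L.getD N (0, false)).2
          (L.getD (tg m (N - N % 2 ^ b) + (N - N % 2 ^ b)) (0, false)).2)))
  else L.getD N (0, false)

/-- the table of the states of the numbers below `M` -/
def tabG (tg : ℕ → ℕ → ℕ) (M b : ℕ) : List (ℕ × Bool) :=
  Nat.rec (motive := fun _ => List (ℕ × Bool)) ((List.range M).map fun _ => (0, false))
    (fun b L => (List.range M).map fun N => stepG tg L b N) b

lemma tabG_getD (tg : ℕ → ℕ → ℕ) (m : ℕ) : ∀ b N, N < 2 ^ m →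
    (tabG tg (2 ^ m) b).getD N (0, false) = St tg b N := by
  intro b
  induction b with
  | zero =>
    intro N hN
    simp [tabG, St]
  | succ b ih =>
    intro N hN
    have h1 : (tabG tg (2 ^ m) (b + 1)).getD N (0, false) = stepG tg (tabG tg (2 ^ m) b) b N := by
      show ((List.range (2 ^ m)).map fun N => stepG tg (tabG tg (2 ^ m) b) b N).getD N (0, false)
        = _
      rw [List.getD_eq_getElem?_getD, List.getElem?_map, List.getElem?_range hN]
      rfl
    rw [h1]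
    unfold stepG
    rw [ih N hN, St]
    by_cases hb : N.testBit b = true
    · rw [if_pos hb, if_pos hb]
      by_cases h0 : N % 2 ^ b = 0
      · rw [if_pos h0, if_pos h0]
      · rw [if_neg h0, if_neg h0]
        cases hh : hitm tg b N (St tg b N).1 with
        | none => rfl
        | some k =>
          have hk : hit tg b N (St tg b N).1 k = true := by
            unfold hitm at hh
            exact List.find?_some hh
          unfold hit at hk
          have hk' := of_decide_eq_true hk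
          have hlt : tg k (N - N % 2 ^ b) < 2 ^ b := hk'.2.1
          have hNb : 2 ^ b ≤ N := Nat.ge_two_pow_of_testBit hb
          have hbm : b < m := (Nat.pow_lt_pow_iff_right (by norm_num)).1 (lt_of_le_of_lt hNb hN)
          have hZ : N - N % 2 ^ b = 2 ^ b * (N / 2 ^ b) := by
            have := Nat.div_add_mod N (2 ^ b)
            omega
          have hM : 2 ^ m = 2 ^ b * 2 ^ (m - b) := by
            rw [← pow_add]; congr 1; omega
          have hdiv : N / 2 ^ b < 2 ^ (m - b) := by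
            rw [Nat.div_lt_iff_lt_mul (by positivity)]
            rw [mul_comm]
            rw [← hM]; exact hN
          have hsum : tg k (N - N % 2 ^ b) + (N - N % 2 ^ b) < 2 ^ m := by
            have h2 : 2 ^ b * (N / 2 ^ b + 1) ≤ 2 ^ b * 2 ^ (m - b) :=
              Nat.mul_le_mul_left _ hdiv
            rw [← hM, mul_add, mul_one, ← hZ] at h2
            omega
          show (b, _) = (b, _)
          rw [ih _ hsum]
    · rw [if_neg hb, if_neg hb]

lemma pr_hitG (tg : ℕ → ℕ → ℕ) (htg : Primrec₂ tg) :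
    Primrec fun t : ℕ × ℕ × ℕ => hitm tg t.1 t.2.1 t.2.2 := by
  have hpw : Primrec fun t : ℕ × ℕ × ℕ × ℕ => 2 ^ t.2.1 :=
    pr_pow.comp (Primrec.const 2) (Primrec.fst.comp Primrec.snd)
  have hpl : Primrec fun t : ℕ × ℕ × ℕ × ℕ => 2 ^ t.2.2.2 :=
    pr_pow.comp (Primrec.const 2) (Primrec.snd.comp (Primrec.snd.comp Primrec.snd))
  have hN : Primrec fun t : ℕ × ℕ × ℕ × ℕ => t.2.2.1 :=
    Primrec.fst.comp (Primrec.snd.comp Primrec.snd)
  have hNb : Primrec fun t : ℕ × ℕ × ℕ × ℕ => t.2.2.1 % 2 ^ t.2.1 :=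
    Primrec.nat_mod.comp hN hpw
  have hNl : Primrec fun t : ℕ × ℕ × ℕ × ℕ => t.2.2.1 % 2 ^ t.2.2.2 :=
    Primrec.nat_mod.comp hN hpl
  have htgt : Primrec fun t : ℕ × ℕ × ℕ × ℕ => tg t.1 (t.2.2.1 - t.2.2.1 % 2 ^ t.2.1) :=
    htg.comp Primrec.fst (Primrec.nat_sub.comp hN hNb)
  have h : PrimrecRel fun (m : ℕ) (t : ℕ × ℕ × ℕ) => hit tg t.1 t.2.1 t.2.2 m = true := by
    have h1 : PrimrecPred fun t : ℕ × ℕ × ℕ × ℕ => 0 < tg t.1 (t.2.2.1 - t.2.2.1 % 2 ^ t.2.1) :=
      Primrec.nat_lt.comp (Primrec.const 0) htgt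
    have h2 : PrimrecPred fun t : ℕ × ℕ × ℕ × ℕ =>
        tg t.1 (t.2.2.1 - t.2.2.1 % 2 ^ t.2.1) < 2 ^ t.2.1 := Primrec.nat_lt.comp htgt hpw
    have h3 : PrimrecPred fun t : ℕ × ℕ × ℕ × ℕ =>
        tg t.1 (t.2.2.1 - t.2.2.1 % 2 ^ t.2.1) -
          tg t.1 (t.2.2.1 - t.2.2.1 % 2 ^ t.2.1) % 2 ^ t.2.2.2 =
          t.2.2.1 % 2 ^ t.2.1 - t.2.2.1 % 2 ^ t.2.2.2 :=
      Primrec.eq.comp (Primrec.nat_sub.comp htgt (Primrec.nat_mod.comp htgt hpl))
        (Primrec.nat_sub.comp hNb hNl)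
    exact (h1.and (h2.and h3)).of_eq (fun t => by simp [hit])
  have h4 := (h.listFilter).comp (Primrec.list_range.comp
    (pr_pow.comp (Primrec.const 2) (Primrec.succ.comp (Primrec.fst (α := ℕ) (β := ℕ × ℕ)))))
      (Primrec.id (α := ℕ × ℕ × ℕ))
  refine (Primrec.list_head?.comp h4).of_eq (fun t => ?_)
  unfold hitm
  rw [List.head?_filter]
  simp

lemma pr_stepG (tg : ℕ → ℕ → ℕ) (htg : Primrec₂ tg) :
    Primrec₂ fun (p : ℕ × ℕ × List (ℕ × Bool)) (N : ℕ) => stepG tg p.2.2 p.2.1 N := by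
  have hb : Primrec fun t : (ℕ × ℕ × List (ℕ × Bool)) × ℕ => t.1.2.1 :=
    Primrec.fst.comp (Primrec.snd.comp Primrec.fst)
  have hL : Primrec fun t : (ℕ × ℕ × List (ℕ × Bool)) × ℕ => t.1.2.2 :=
    Primrec.snd.comp (Primrec.snd.comp Primrec.fst)
  have hN : Primrec fun t : (ℕ × ℕ × List (ℕ × Bool)) × ℕ => t.2 := Primrec.snd
  have hpw : Primrec fun t : (ℕ × ℕ × List (ℕ × Bool)) × ℕ => 2 ^ t.1.2.1 :=
    pr_pow.comp (Primrec.const 2) hb
  have hmod : Primrec fun t : (ℕ × ℕ × List (ℕ × Bool)) × ℕ => t.2 % 2 ^ t.1.2.1 :=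
    Primrec.nat_mod.comp hN hpw
  have hZ : Primrec fun t : (ℕ × ℕ × List (ℕ × Bool)) × ℕ => t.2 - t.2 % 2 ^ t.1.2.1 :=
    Primrec.nat_sub.comp hN hmod
  have hg : Primrec fun t : (ℕ × ℕ × List (ℕ × Bool)) × ℕ => t.1.2.2.getD t.2 (0, false) :=
    (Primrec.list_getD (0, false)).comp hL hN
  have hh : Primrec fun t : (ℕ × ℕ × List (ℕ × Bool)) × ℕ =>
      hitm tg t.1.2.1 t.2 (t.1.2.2.getD t.2 (0, false)).1 :=
    (pr_hitG tg htg).comp (hb.pair (hN.pair (Primrec.fst.comp hg)))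
  have hs : Primrec₂ fun (t : (ℕ × ℕ × List (ℕ × Bool)) × ℕ) (m : ℕ) =>
      ((t.1.2.1, !(xor (t.1.2.2.getD t.2 (0, false)).2
        (t.1.2.2.getD (tg m (t.2 - t.2 % 2 ^ t.1.2.1) + (t.2 - t.2 % 2 ^ t.1.2.1))
          (0, false)).2)) : ℕ × Bool) := by
    have hZ' : Primrec fun u : ((ℕ × ℕ × List (ℕ × Bool)) × ℕ) × ℕ =>
        u.1.2 - u.1.2 % 2 ^ u.1.1.2.1 := hZ.comp Primrec.fst
    have hidx : Primrec fun u : ((ℕ × ℕ × List (ℕ × Bool)) × ℕ) × ℕ =>
        tg u.2 (u.1.2 - u.1.2 % 2 ^ u.1.1.2.1) + (u.1.2 - u.1.2 % 2 ^ u.1.1.2.1) :=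
      Primrec.nat_add.comp (htg.comp Primrec.snd hZ') hZ'
    have h1 : Primrec fun u : ((ℕ × ℕ × List (ℕ × Bool)) × ℕ) × ℕ =>
        (u.1.1.2.2.getD (tg u.2 (u.1.2 - u.1.2 % 2 ^ u.1.1.2.1) +
          (u.1.2 - u.1.2 % 2 ^ u.1.1.2.1)) (0, false)).2 :=
      Primrec.snd.comp ((Primrec.list_getD (0, false)).comp (hL.comp Primrec.fst) hidx)
    have h2 : Primrec fun u : ((ℕ × ℕ × List (ℕ × Bool)) × ℕ) × ℕ =>
        (u.1.1.2.2.getD u.1.2 (0, false)).2 := Primrec.snd.comp (hg.comp Primrec.fst)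
    have h3 := (Primrec.dom_bool₂ (fun a b => !(xor a b))).comp h2 h1
    exact (hb.comp Primrec.fst).pair h3
  have hcase : Primrec fun t : (ℕ × ℕ × List (ℕ × Bool)) × ℕ =>
      (Option.casesOn (hitm tg t.1.2.1 t.2 (t.1.2.2.getD t.2 (0, false)).1)
        (t.1.2.2.getD t.2 (0, false))
        (fun m => (t.1.2.1, !(xor (t.1.2.2.getD t.2 (0, false)).2
          (t.1.2.2.getD (tg m (t.2 - t.2 % 2 ^ t.1.2.1) + (t.2 - t.2 % 2 ^ t.1.2.1))
            (0, false)).2))) : ℕ × Bool) :=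
    Primrec.option_casesOn hh hg hs
  have hc1 : PrimrecPred fun t : (ℕ × ℕ × List (ℕ × Bool)) × ℕ => t.2.testBit t.1.2.1 = true :=
    pp_bool (pr_testBit.comp hN hb)
  have hc2 : PrimrecPred fun t : (ℕ × ℕ × List (ℕ × Bool)) × ℕ => t.2 % 2 ^ t.1.2.1 = 0 :=
    Primrec.eq.comp hmod (Primrec.const 0)
  have hbf : Primrec fun t : (ℕ × ℕ × List (ℕ × Bool)) × ℕ => ((t.1.2.1, false) : ℕ × Bool) :=
    hb.pair (Primrec.const false)
  exact (Primrec.ite hc1 (Primrec.ite hc2 hbf hcase) hg).of_eq (fun t => by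
    unfold stepG
    rfl)

lemma pr_tabG (tg : ℕ → ℕ → ℕ) (htg : Primrec₂ tg) : Primrec₂ (tabG tg) := by
  have hf : Primrec fun M : ℕ => (List.range M).map fun _ => ((0, false) : ℕ × Bool) :=
    Primrec.list_map Primrec.list_range (Primrec₂.const (0, false))
  have hg : Primrec₂ fun (M : ℕ) (p : ℕ × List (ℕ × Bool)) =>
      (List.range M).map fun N => stepG tg p.2 p.1 N := by
    have h1 : Primrec fun t : ℕ × ℕ × List (ℕ × Bool) => List.range t.1 :=
      Primrec.list_range.comp Primrec.fst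
    exact Primrec.list_map h1 (pr_stepG tg htg)
  exact Primrec.nat_rec hf hg

theorem g4 : G4 := by
  intro tg htg
  have h : Primrec fun N : ℕ => ((tabG tg (2 ^ N) N).getD N (0, false)).2 := by
    have h1 : Primrec fun N : ℕ => tabG tg (2 ^ N) N :=
      (pr_tabG tg htg).comp (pr_pow.comp (Primrec.const 2) Primrec.id) Primrec.id
    exact Primrec.snd.comp ((Primrec.list_getD (0, false)).comp h1 Primrec.id)
  refine h.of_eq (fun N => ?_)
  rw [tabG_getD tg N N N Nat.lt_two_pow_self]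
  rfl

end Pool.Agent.Work.MP_69fea5_lc.S4
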