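import Pool.Agent.Work.MP_69fea5_lc.S4.Stmts

set_option autoImplicit false

/-! The key theorem. -/

namespace Pool.Agent.Work.MP_69fea5_lc.S4

open Pool.Agent.Work.MP_69fea5_lc.DJ

theorem h_low {Z : ℕ} (hZ : 0 < Z) : ∃ b, 2 ^ b ∣ Z ∧ Z.testBit b = true ∧
    ∀ B, 2 ^ B ∣ Z → B ≤ b := by
  obtain ⟨b, m, hm, rfl⟩ := Nat.exists_eq_two_pow_mul_odd hZ.ne'
  refine ⟨b, dvd_mul_right _ _, ?_, ?_⟩
  · rw [Nat.testBit_two_pow_mul]
    simp only [ge_iff_le, le_refl, decide_true, Nat.sub_self, Bool.true_and, Nat.testBit_zero,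
      decide_eq_true_eq]
    exact Nat.odd_iff.mp hm
  · intro B hB
    have hc : Nat.Coprime (2 ^ B) m := Nat.Coprime.pow_left _ (Nat.coprime_two_left.mpr hm)
    have h1 : 2 ^ B ∣ 2 ^ b := hc.dvd_of_dvd_mul_right hB
    exact (Nat.pow_dvd_pow_iff_le_right (by norm_num)).mp h1

theorem h_of (c : C) (e_ : E) (f1 : F1) : H := by
  intro X Y hX hY hXY e hex
  classical
  by_contra hcon
  push Not at hcon
  obtain ⟨ks, hks, hmin⟩ : ∃ ks, Good (gg e ks) ∧ ∀ k < ks, ¬ Good (gg e k) :=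
    ⟨Nat.find hex, Nat.find_spec hex, fun k hk => Nat.find_min hex hk⟩
  have hL : Lst X e ks := hcon ks hks
  have hxX : ∀ i < 2 ^ e, (lst ks).getD i 0 ∈ X := fun i hi => (hL i hi).1
  choose! Bf hBf using hXY
  have hle : ∀ i < 2 ^ e, Bf ((lst ks).getD i 0) + (lst ks).getD i 0 ≤
      ∑ i ∈ Finset.range (2 ^ e), (Bf ((lst ks).getD i 0) + (lst ks).getD i 0) := by
    intro i hi
    exact Finset.single_le_sum (f := fun i => Bf ((lst ks).getD i 0) + (lst ks).getD i 0)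
      (fun _ _ => Nat.zero_le _) (Finset.mem_range.mpr hi)
  obtain ⟨S, hS⟩ : ∃ S, S =
    ∑ i ∈ Finset.range (2 ^ e), (Bf ((lst ks).getD i 0) + (lst ks).getD i 0) := ⟨_, rfl⟩
  rw [← hS] at hle
  obtain ⟨B, hB⟩ : ∃ B, B = S + e + ks + 1 := ⟨_, rfl⟩
  obtain ⟨y1, hy1, y2, hy2, y3, hy3, p1, p2, p3, d1, d2, d3, hcnt⟩ :=
    c (ks + 1) (gg e) (f1 e) Y hY B
  obtain ⟨Z, hZ⟩ : ∃ Z, Z = y1 + y2 + y3 := ⟨_, rfl⟩
  have hBy1 : B ≤ y1 := (Nat.lt_two_pow_self.le).trans (Nat.le_of_dvd p1 d1)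
  have hy12 : y1 ≤ y2 := (Nat.lt_two_pow_self.le).trans (Nat.le_of_dvd p2 d2)
  have e2 : 2 ^ B ∣ y2 := (pow_dvd_pow 2 hBy1).trans d2
  have e3 : 2 ^ B ∣ y3 := (pow_dvd_pow 2 (hBy1.trans hy12)).trans d3
  have hBZ : 2 ^ B ∣ Z := by
    rw [hZ]; exact dvd_add (dvd_add d1 e2) e3
  have hZpos : 0 < Z := by omega
  obtain ⟨b, hb1, hb2, hb3⟩ := h_low hZpos
  have hBb : B ≤ b := hb3 B hBZ
  rw [← hZ] at hcnt
  have htau : tau e Z = ks := by
    unfold tau
    have h1 : (List.range Z).find? (fun k => decide (cnt (gg e k) Z % 3 ≠ 1)) = some ks := by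
      rw [List.find?_range_eq_some]
      refine ⟨?_, ?_, ?_⟩
      · have := hcnt ks (by omega)
        simp only [ne_eq, decide_eq_true_eq]
        intro h
        exact this.mp h hks
      · rw [List.mem_range]
        omega
      · intro k hk
        have := (hcnt k (by omega)).mpr (hmin k hk)
        simp [this]
    rw [h1]
    rfl
  have ht0 : tgt 0 Z = 0 := by simp [tgt]
  have hti : ∀ i < 2 ^ e, tgt (2 ^ e + i) Z = (lst ks).getD i 0 := by
    intro i hi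
    have hpos : 0 < 2 ^ e := by positivity
    have hlog : Nat.log2 (2 ^ e + i) = e := by
      rw [Nat.log2_eq_iff (by omega)]
      refine ⟨by omega, ?_⟩
      rw [pow_succ]; omega
    unfold tgt
    rw [if_neg (by omega), hlog, htau]
    congr 1
    omega
  obtain ⟨i, hi, hflip⟩ := e_ tgt e b Z (fun i => (lst ks).getD i 0) hb1 hb2 (by omega) ht0
    (by
      intro i hi
      have h1 := hle i hi
      have h2 : (lst ks).getD i 0 ≤ b := by omega
      exact ⟨hX _ (hxX i hi), h2.trans_lt Nat.lt_two_pow_self, hti i hi⟩)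
    (fun i hi j hj hij => (hL i hi).2 j hj hij)
  have h1 := hle i hi
  have h2 : 2 ^ Bf ((lst ks).getD i 0) ∣ y1 :=
    (pow_dvd_pow 2 (show Bf ((lst ks).getD i 0) ≤ B by omega)).trans d1
  have h3 := hBf _ (hxX i hi) y1 hy1 y2 hy2 y3 hy3 h2 d2 d3
  rw [← hZ] at h3
  unfold c4 at h3
  rw [h3] at hflip
  simp at hflip

end Pool.Agent.Work.MP_69fea5_lc.S4
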