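import Pool.Agent.Work.MP_69fea5_lc.S4.Stmts

set_option autoImplicit false

/-! Indices for the sections of a `Σ⁰₄` relation. -/

namespace Pool.Agent.Work.MP_69fea5_lc.S4

open Nat.Partrec (Code)

/-- The relation, as a function of the pair of `n` and the argument of the code. -/
def j1F (R : ℕ → ℕ → ℕ → ℕ → ℕ → ℕ → Bool) (p : ℕ) : ℕ :=
  bif R p.unpair.1 p.unpair.2.unpair.2.unpair.1.unpair.1 p.unpair.2.unpair.2.unpair.1.unpair.2
    p.unpair.2.unpair.2.unpair.2.unpair.1 p.unpair.2.unpair.2.unpair.2.unpair.2.unpair.1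
    p.unpair.2.unpair.2.unpair.2.unpair.2.unpair.2 then 1 else 0

theorem j1F_computable (R : ℕ → ℕ → ℕ → ℕ → ℕ → ℕ → Bool)
    (hR : Computable fun t : ℕ × ℕ × ℕ × ℕ × ℕ × ℕ =>
      R t.1 t.2.1 t.2.2.1 t.2.2.2.1 t.2.2.2.2.1 t.2.2.2.2.2) : Computable (j1F R) := by
  have u1 : Computable fun p : ℕ => p.unpair.1 := Computable.fst.comp Computable.unpair
  have u2 : Computable fun p : ℕ => p.unpair.2 := Computable.snd.comp Computable.unpair
  have a2 : Computable fun p : ℕ => p.unpair.2.unpair.2 := u2.comp u2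
  have k : Computable fun p : ℕ => p.unpair.2.unpair.2.unpair.1 := u1.comp a2
  have k1 : Computable fun p : ℕ => p.unpair.2.unpair.2.unpair.1.unpair.1 := u1.comp k
  have k2 : Computable fun p : ℕ => p.unpair.2.unpair.2.unpair.1.unpair.2 := u2.comp k
  have a3 : Computable fun p : ℕ => p.unpair.2.unpair.2.unpair.2 := u2.comp a2
  have j : Computable fun p : ℕ => p.unpair.2.unpair.2.unpair.2.unpair.1 := u1.comp a3
  have a4 : Computable fun p : ℕ => p.unpair.2.unpair.2.unpair.2.unpair.2 := u2.comp a3
  have u : Computable fun p : ℕ => p.unpair.2.unpair.2.unpair.2.unpair.2.unpair.1 := u1.comp a4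
  have l : Computable fun p : ℕ => p.unpair.2.unpair.2.unpair.2.unpair.2.unpair.2 := u2.comp a4
  have h := hR.comp (u1.pair (k1.pair (k2.pair (j.pair (u.pair l)))))
  dsimp only at h
  unfold j1F
  exact Computable.cond h (Computable.const 1) (Computable.const 0)

theorem j1_of (f2 : F2) : J1 := by
  intro R hR
  have hF : Computable (j1F R) := j1F_computable R hR
  obtain ⟨cd, hcd⟩ := Nat.Partrec.Code.exists_code.1 (Partrec.nat_iff.1 hF.partrec)
  have hE : Primrec fun n : ℕ => Encodable.encode (Code.curry cd n) :=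
    Primrec.encode.comp (Nat.Partrec.Code.primrec₂_curry.comp (Primrec.const cd) Primrec.id)
  refine ⟨fun n => Encodable.encode (Code.curry cd n), hE, ?_⟩
  intro n y i
  have hev : (Denumerable.ofNat Nat.Partrec.Code (Encodable.encode (Code.curry cd n))).eval
      = fun v => Part.some (j1F R (Nat.pair n v)) := by
    rw [Denumerable.ofNat_encode]
    funext v
    rw [Nat.Partrec.Code.eval_curry, hcd]
    rfl
  have hk := fun j => f2 (Encodable.encode (Code.curry cd n)) (Nat.pair y i) j
    (fun v => j1F R (Nat.pair n v)) hev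
  unfold Good
  refine forall_congr' fun j => (hk j).trans ?_
  refine exists_congr fun u => forall_congr' fun l => ?_
  simp only [j1F, Nat.unpair_pair]
  cases R n y i j u l <;> simp

end Pool.Agent.Work.MP_69fea5_lc.S4
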