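import Pool.Agent.Work.MP_69fea5_lc.S4.Stmts

set_option autoImplicit false

/-! Lists of elements with different highest positions, computed from an infinite set. -/

namespace Pool.Agent.Work.MP_69fea5_lc.S4

open Pool.Agent.Work.MP_69fea5_lc.DJ
open Primrec

namespace J2

/-- The test for the next element. -/
def testG (x u : ℕ) (L : List ℕ) : Prop :=
  1 ≤ u ∧ L.getD (u - 1) 0 = 1 ∧ 2 * x < u - 1 ∧
    ∀ y < u - 1, ¬ (L.getD y 0 = 1 ∧ 2 * x < y)

lemma pr_testG : PrimrecPred fun t : (ℕ × ℕ) × List ℕ => testG t.1.1 t.1.2 t.2 := by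
  have x : Primrec fun t : (ℕ × ℕ) × List ℕ => t.1.1 := fst.comp fst
  have x2 : Primrec fun t : (ℕ × ℕ) × List ℕ => 2 * t.1.1 := nat_mul.comp (const 2) x
  have u : Primrec fun t : (ℕ × ℕ) × List ℕ => t.1.2 := snd.comp fst
  have L : Primrec fun t : (ℕ × ℕ) × List ℕ => t.2 := snd
  have u' : Primrec fun t : (ℕ × ℕ) × List ℕ => t.1.2 - 1 := nat_sub.comp u (const 1)
  have p1 := nat_le.comp (const 1) u
  have p2 := Primrec.eq.comp (pr_getD.comp L u') (const 1)
  have p3 := nat_lt.comp x2 u'
  have p5 : PrimrecPred fun t : (ℕ × ℕ) × List ℕ =>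
      ∀ y < t.1.2 - 1, ¬ (t.2.getD y 0 = 1 ∧ 2 * t.1.1 < y) := by
    refine pp_forall (R := fun (t : (ℕ × ℕ) × List ℕ) y =>
      ¬ (t.2.getD y 0 = 1 ∧ 2 * t.1.1 < y)) ?_ u'
    refine PrimrecPred.not (PrimrecPred.and ?_ ?_)
    · exact Primrec.eq.comp (pr_getD.comp (L.comp fst) snd) (const 1)
    · exact nat_lt.comp (x2.comp fst) snd
  exact p1.and (p2.and (p3.and p5))

/-- Every infinite set computes a sequence of elements with different highest positions. -/
lemma exists_seqG {X : Set ℕ} (hX : X.Infinite) :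
    ∃ s : ℕ → ℕ, (∀ i, s i ∈ X) ∧ (∀ i, 2 * s i < s (i + 1)) ∧
      Nat.RecursiveIn {chi X} (fun n => Part.some (s n)) := by
  classical
  have hex : ∀ x, ∃ y, y ∈ X ∧ 2 * x < y := by
    intro x
    obtain ⟨y, hy, hxy⟩ := hX.exists_gt (2 * x)
    exact ⟨y, hy, hxy⟩
  have hOX : Nat.RecursiveIn {chi X} (fun n => Part.some (OX X n)) := by
    refine (Nat.RecursiveIn.oracle (chi X) (Set.mem_singleton _)).of_eq (fun n => ?_)
    simp only [chi, OX]
  have hnxt : Nat.RecursiveIn {chi X} (fun x => Part.some (Nat.find (hex x))) := by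
    refine search' hOX testG pr_testG (fun _ u _ => u - 1)
      (nat_sub.comp (snd.comp fst) (const 1)) (fun x => Nat.find (hex x)) ?_ ?_
    · intro x
      obtain ⟨h1, h2⟩ := Nat.find_spec (hex x)
      refine ⟨Nat.find (hex x) + 1, by omega, ?_, by omega, ?_⟩
      · rw [show Nat.find (hex x) + 1 - 1 = Nat.find (hex x) by omega, pre_getD (by omega)]
        simp [OX, h1]
      · intro y hy hc
        rw [pre_getD (by omega)] at hc
        refine Nat.find_min (hex x) (m := y) (by omega) ⟨?_, hc.2⟩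
        have := hc.1
        unfold OX at this
        by_contra hn
        rw [if_neg hn] at this
        omega
    · rintro x u ⟨h0, h1, h2, h4⟩
      rw [pre_getD (by omega)] at h1
      have hX1 : u - 1 ∈ X := by
        unfold OX at h1
        by_contra hn
        rw [if_neg hn] at h1
        omega
      symm
      rw [Nat.find_eq_iff]
      refine ⟨⟨hX1, h2⟩, fun y hy hc => h4 y hy ⟨?_, hc.2⟩⟩
      rw [pre_getD (by omega)]
      simp [OX, hc.1]
  obtain ⟨x₀, hx₀⟩ := hX.nonempty
  set s : ℕ → ℕ := fun n => Nat.rec x₀ (fun _ IH => Nat.find (hex IH)) n with hs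
  have hs0 : s 0 = x₀ := rfl
  have hs1 : ∀ n, s (n + 1) = Nat.find (hex (s n)) := fun n => rfl
  have hsX : ∀ i, s i ∈ X := by
    intro i
    cases i with
    | zero => exact hx₀
    | succ i =>
      rw [hs1]
      exact (Nat.find_spec (hex (s i))).1
  refine ⟨s, hsX, fun i => ?_, ?_⟩
  · rw [hs1]
    exact (Nat.find_spec (hex (s i))).2
  · have hstep := comp_rec (f := fun x => Part.some (Nat.find (hex x))) hnxt
      (g := fun t : ℕ => t.unpair.2.unpair.2) (pr_u2.comp pr_u2)
    have hrec := Nat.RecursiveIn.prec (prim_rec (O := {chi X}) (Primrec.const x₀)) hstep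
    have hfin := comp_rec hrec (g := fun n => Nat.pair 0 n)
      (Primrec₂.natPair.comp (const 0) Primrec.id)
    refine hfin.of_eq (fun n => ?_)
    simp only [Nat.unpair_pair]
    induction n with
    | zero => rfl
    | succ n ih =>
      simp only at ih ⊢
      rw [ih, hs1]
      simp

end J2

theorem j2 : J2 := by
  intro X hX hpos E hE
  obtain ⟨s, hsX, hs, hrec⟩ := J2.exists_seqG hX
  have hlog : StrictMono fun i => Nat.log 2 (s i) := by
    refine strictMono_nat_of_lt_succ fun i => ?_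
    have h0 : s i ≠ 0 := (hpos _ (hsX i)).ne'
    have h1 : Nat.log 2 (s i * 2) = Nat.log 2 (s i) + 1 := Nat.log_mul_base (by norm_num) h0
    have h2 : Nat.log 2 (s i * 2) ≤ Nat.log 2 (s (i + 1)) :=
      Nat.log_mono_right (by have := hs i; omega)
    show Nat.log 2 (s i) < Nat.log 2 (s (i + 1))
    omega
  refine ⟨fun n => Encodable.encode (DJ.pre s (2 ^ E n)), ?_, ?_⟩
  · exact comp_rec (f := fun u => Part.some (Encodable.encode (DJ.pre s u))) (DJ.pre_rec hrec)
      (g := fun n => 2 ^ E n) (pr_pow.comp (Primrec.const 2) hE)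
  · intro n i a ha
    have hl : lst (Nat.pair (Encodable.encode (DJ.pre s (2 ^ E n))) i) = DJ.pre s (2 ^ E n) := by
      unfold lst
      rw [Nat.unpair_pair]
      exact dec_encode _
    rw [hl, DJ.pre_getD ha]
    refine ⟨hsX a, fun b hb hab => ?_⟩
    rw [DJ.pre_getD hb, Nat.log2_eq_log_two, Nat.log2_eq_log_two]
    exact fun h => hab (hlog.injective h)

end Pool.Agent.Work.MP_69fea5_lc.S4
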