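import Pool.Agent.Work.MP_69fea5_lc.S4.Stmts

set_option autoImplicit false

/-! The two environments for the key theorem: solutions of Hindman's theorem, and sets which are
homogeneous for sums of three and four terms with finite fibers. -/

namespace Pool.Agent.Work.MP_69fea5_lc.S4

open Pool.Agent.Work.MP_69fea5_lc.DJ

theorem k2 : K2 := by
  intro X hX hpos hf hb
  obtain ⟨b, hb⟩ := hb
  refine ⟨hpos, hX, ?_, ?_⟩
  · intro B
    obtain ⟨y, hy, hBy, hmod⟩ := exists_next hX hpos hf B
    exact ⟨y, hy, hpos y hy, Nat.dvd_of_mod_eq_zero hmod⟩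
  · intro x hx
    refine ⟨x, fun y₁ h1 y₂ h2 y₃ h3 d1 d2 d3 => ?_⟩
    have p1 : x < y₁ := lt_of_lt_of_le Nat.lt_two_pow_self (Nat.le_of_dvd (hpos _ h1) d1)
    have p2 : y₁ < y₂ := lt_of_lt_of_le Nat.lt_two_pow_self (Nat.le_of_dvd (hpos _ h2) d2)
    have p3 : y₂ < y₃ := lt_of_lt_of_le Nat.lt_two_pow_self (Nat.le_of_dvd (hpos _ h3) d3)
    have n1 : y₂ ∉ ({y₃} : Finset ℕ) := by
      rw [Finset.mem_singleton]; omega
    have n2 : y₁ ∉ ({y₂, y₃} : Finset ℕ) := by
      rw [Finset.mem_insert, Finset.mem_singleton]; omega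
    have n3 : x ∉ ({y₁, y₂, y₃} : Finset ℕ) := by
      rw [Finset.mem_insert, Finset.mem_insert, Finset.mem_singleton]; omega
    have s3 : ∑ z ∈ ({y₁, y₂, y₃} : Finset ℕ), z = y₁ + y₂ + y₃ := by
      rw [Finset.sum_insert n2, Finset.sum_insert n1, Finset.sum_singleton]; ring
    have s4 : ∑ z ∈ ({x, y₁, y₂, y₃} : Finset ℕ), z = x + (y₁ + y₂ + y₃) := by
      rw [Finset.sum_insert n3, s3]
    have c3 : ({y₁, y₂, y₃} : Finset ℕ).card = 3 := by
      rw [Finset.card_insert_of_notMem n2, Finset.card_insert_of_notMem n1,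
        Finset.card_singleton]
    have c4' : ({x, y₁, y₂, y₃} : Finset ℕ).card = 4 := by
      rw [Finset.card_insert_of_notMem n3, c3]
    have e3 := hb {y₁, y₂, y₃} (by omega) (by omega) (by
      intro z hz
      simp only [Finset.coe_insert, Finset.coe_singleton, Set.mem_insert_iff,
        Set.mem_singleton_iff] at hz
      rcases hz with rfl | rfl | rfl
      · exact h1
      · exact h2
      · exact h3)
    have e4 := hb {x, y₁, y₂, y₃} (by omega) (by omega) (by
      intro z hz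
      simp only [Finset.coe_insert, Finset.coe_singleton, Set.mem_insert_iff,
        Set.mem_singleton_iff] at hz
      rcases hz with rfl | rfl | rfl | rfl
      · exact hx
      · exact h1
      · exact h2
      · exact h3)
    rw [s3] at e3
    rw [s4] at e4
    rw [e3, e4]

theorem k1 : K1 := by
  intro X hX hpos hb
  obtain ⟨b, hb⟩ := hb
  have h0 : (0 : ℕ) ∉ X := fun h => absurd (hpos 0 h) (lt_irrefl 0)
  choose K' F hBl using fun k => exists_Bl hX k
  set kk : ℕ → ℕ := fun n => K'^[n] 0 with hkk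
  have kk_succ : ∀ n, kk (n + 1) = K' (kk n) := fun n => by
    simp only [hkk]
    rw [Function.iterate_succ_apply']
  set ff : ℕ → ℕ := fun n => F (kk n) with hff
  have bl : ∀ n, Bl X (kk n) (kk (n + 1)) (ff n) := fun n => by
    rw [kk_succ]
    exact hBl (kk n)
  have kmono : StrictMono kk := strictMono_nat_of_lt_succ fun n => (bl n).lt
  have idk : ∀ n, n ≤ kk n := kmono.id_le
  have zpos : ∀ n, 0 < S (ff n) := fun n => S_pos h0 (bl n).1
  have zge : ∀ n, 2 ^ kk n ≤ S (ff n) := fun n => Nat.le_of_dvd (zpos n) (bl n).2.2.1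
  have zlt : ∀ n, S (ff n) < 2 ^ kk (n + 1) := fun n => (bl n).2.2.2.2
  have zmono : StrictMono fun n => S (ff n) :=
    strictMono_nat_of_lt_succ fun n => lt_of_lt_of_le (zlt n) (zge (n + 1))
  refine ⟨{z | ∃ n, z = S (ff n)}, hpos, hX, ?_, ?_⟩
  · intro B
    exact ⟨S (ff B), ⟨B, rfl⟩, zpos B, (pow_dvd_pow 2 (idk B)).trans (bl B).2.2.1⟩
  · intro x hx
    refine ⟨kk (x + 1), ?_⟩
    rintro y₁ ⟨i, rfl⟩ y₂ ⟨j, rfl⟩ y₃ ⟨k, rfl⟩ d1 d2 d3
    have hij : i < j := by
      have h : S (ff i) < S (ff j) :=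
        lt_of_lt_of_le Nat.lt_two_pow_self (Nat.le_of_dvd (zpos j) d2)
      exact zmono.lt_iff_lt.1 h
    have hjk : j < k := by
      have h : S (ff j) < S (ff k) :=
        lt_of_lt_of_le Nat.lt_two_pow_self (Nat.le_of_dvd (zpos k) d3)
      exact zmono.lt_iff_lt.1 h
    have hxi : x < i := by
      by_contra hcon
      have h1 : 2 ^ kk (x + 1) ≤ S (ff i) := Nat.le_of_dvd (zpos i) d1
      have h2 : S (ff i) < 2 ^ kk (i + 1) := zlt i
      have h3 : 2 ^ kk (i + 1) ≤ 2 ^ kk (x + 1) :=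
        Nat.pow_le_pow_right (by norm_num) (kmono.monotone (by omega))
      omega
    have b1 : Bl X (kk i) (kk j) (ff i) := (bl i).mono le_rfl (kmono.monotone (by omega))
    have b2 : Bl X (kk j) (kk k) (ff j) := (bl j).mono le_rfl (kmono.monotone (by omega))
    have b3 : Bl X (kk k) (kk (k + 1)) (ff k) := bl k
    have b12 := b1.add b2
    have b123 := b12.add b3
    have s12 : S (ff i + ff j) = S (ff i) + S (ff j) := b1.S_add b2
    have s123 : S (ff i + ff j + ff k) = S (ff i) + S (ff j) + S (ff k) := by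
      rw [b12.S_add b3, s12]
    have hxk : x < kk i := lt_of_lt_of_le hxi (idk i)
    have hlt : 2 ^ x < 2 ^ kk i := Nat.pow_lt_pow_right (by norm_num) hxk
    have vx : V X (2 ^ x) := by
      refine ⟨by positivity, fun i hi => ?_⟩
      rw [bits_two_pow, List.mem_singleton] at hi
      rw [hi]
      exact hx
    have sx : S (2 ^ x) = x := by
      unfold S
      rw [bits_two_pow]
      simp
    have v4 := V_add vx b123.1 hlt b123.2.1
    have s4 : S (2 ^ x + (ff i + ff j + ff k)) = x + (S (ff i) + S (ff j) + S (ff k)) := by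
      rw [DJ.S_add hlt b123.2.1, sx, s123]
    have e3 := color_S (c := c4) hb b123.1
    have e4 := color_S (c := c4) hb v4
    rw [s123] at e3
    rw [s4] at e4
    rw [e3, e4]

end Pool.Agent.Work.MP_69fea5_lc.S4
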