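import Pool.Agent.Work.MP_69fea5_lc.S4.Stmts

set_option autoImplicit false

/-! The node count (N1, N2, N3), helper27. -/

namespace Pool.Agent.Work.MP_69fea5_lc.S4

open Pool.Agent.Work.MP_69fea5_lc.DJ

theorem nd_cons27 (a : ℕ) (r : List ℕ) : nd (a :: r) = nd r + ctr a r := rfl

theorem ctr_none27 {a : ℕ} {r : List ℕ} (h : r.find? (fun x => decide (x ≤ a)) = none) :
    ctr a r = 1 := by
  unfold ctr; rw [h]

theorem ctr_some27 {a x : ℕ} {r : List ℕ} (h : r.find? (fun x => decide (x ≤ a)) = some x) :
    ctr a r = if x < a then 1 else 0 := by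
  unfold ctr; rw [h]

theorem find_none27 {a : ℕ} {r : List ℕ} (h : ∀ x ∈ r, a < x) :
    r.find? (fun x => decide (x ≤ a)) = none := by
  rw [List.find?_eq_none]
  intro x hx
  have := h x hx
  simpa using this

theorem ctr_app27 (a p : ℕ) (v u : List ℕ) (hp : p < a) : ctr a (v ++ p :: u) = ctr a v := by
  cases hv : v.find? (fun x => decide (x ≤ a)) with
  | some x =>
    have h1 : (v ++ p :: u).find? (fun x => decide (x ≤ a)) = some x := by
      rw [List.find?_append, hv]; rfl
    rw [ctr_some27 h1, ctr_some27 hv]
  | none =>
    have h1 : (v ++ p :: u).find? (fun x => decide (x ≤ a)) = some p := by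
      rw [List.find?_append, hv]
      simp [List.find?_cons, hp.le]
    rw [ctr_some27 h1, ctr_none27 hv, if_pos hp]

theorem n3 : N3 := by
  intro b u h
  rw [nd_cons27, ctr_none27 (find_none27 h)]

theorem n1 : N1 := by
  intro p u v
  induction v with
  | nil => intro _; simp [nd]
  | cons a v ih =>
    intro h
    have ih' := ih (fun x hx => h x (List.mem_cons_of_mem _ hx))
    have ha : p < a := h a List.mem_cons_self
    rw [List.cons_append, nd_cons27, ih', ctr_app27 a p v u ha, nd_cons27 a v]
    omega

/-- the contribution of `b` after a word with letters `≥ b` -/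
theorem ctr_ge27 {b : ℕ} {r : List ℕ} (h : ∀ x ∈ r, b ≤ x) :
    ctr b r = if b ∈ r then 0 else 1 := by
  split_ifs with hb
  · cases hv : r.find? (fun x => decide (x ≤ b)) with
    | none =>
      exfalso
      rw [List.find?_eq_none] at hv
      have := hv b hb
      simp at this
    | some x =>
      rw [ctr_some27 hv]
      have hx : x ∈ r := List.mem_of_find?_eq_some hv
      have := h x hx
      rw [if_neg (by omega)]
  · apply ctr_none27
    apply find_none27
    intro x hx
    have h1 := h x hx
    rcases Nat.lt_or_ge b x with h2 | h2
    · exact h2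
    · exfalso
      apply hb
      have : x = b := by omega
      rw [← this]; exact hx

theorem n2 : N2 := by
  intro b u v hu
  induction v with
  | nil =>
    intro _ hb
    simp only [List.nil_append, List.not_mem_nil, if_false]
    rw [nd_cons27, ctr_ge27 hu, if_pos hb]
    simp [nd]
  | cons a v ih =>
    intro hv hb
    have hv' : ∀ x ∈ v, b ≤ x := fun x hx => hv x (List.mem_cons_of_mem _ hx)
    have ih' := ih hv' hb
    have ha : b ≤ a := hv a List.mem_cons_self
    rw [List.cons_append, nd_cons27, nd_cons27 a v]
    rcases Nat.lt_or_ge b a with h1 | h1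
    · rw [ctr_app27 a b v u h1]
      have hmem : (b ∈ a :: v) ↔ b ∈ v := by
        rw [List.mem_cons]
        constructor
        · rintro (h | h)
          · omega
          · exact h
        · exact Or.inr
      by_cases hbv : b ∈ v
      · rw [if_pos (hmem.2 hbv)]
        rw [if_pos hbv] at ih'
        omega
      · rw [if_neg (fun h => hbv (hmem.1 h))]
        rw [if_neg hbv] at ih'
        omega
    · have hab : a = b := by omega
      subst hab
      rw [if_pos List.mem_cons_self]
      have hall : ∀ x ∈ v ++ a :: u, a ≤ x := by
        intro x hx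
        rw [List.mem_append, List.mem_cons] at hx
        rcases hx with h | h | h
        · exact hv' x h
        · omega
        · exact hu x h
      rw [ctr_ge27 hall, ctr_ge27 hv', if_pos (by simp)]
      by_cases hbv : a ∈ v
      · rw [if_pos hbv] at ih' ⊢
        omega
      · rw [if_neg hbv] at ih' ⊢
        omega

end Pool.Agent.Work.MP_69fea5_lc.S4
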