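import Pool.Agent.Work.MP_69fea5_lc.S4.I_A
import Pool.Agent.Work.MP_69fea5_lc.S4.I_B
import Pool.Agent.Work.MP_69fea5_lc.S4.I_N
import Pool.Agent.Work.MP_69fea5_lc.S4.I_C
import Pool.Agent.Work.MP_69fea5_lc.S4.I_D
import Pool.Agent.Work.MP_69fea5_lc.S4.I_E
import Pool.Agent.Work.MP_69fea5_lc.S4.I_F
import Pool.Agent.Work.MP_69fea5_lc.S4.I_G1
import Pool.Agent.Work.MP_69fea5_lc.S4.I_G2
import Pool.Agent.Work.MP_69fea5_lc.S4.I_G3
import Pool.Agent.Work.MP_69fea5_lc.S4.I_G4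
import Pool.Agent.Work.MP_69fea5_lc.S4.I_H
import Pool.Agent.Work.MP_69fea5_lc.S4.I_I
import Pool.Agent.Work.MP_69fea5_lc.S4.I_J1
import Pool.Agent.Work.MP_69fea5_lc.S4.I_J2
import Pool.Agent.Work.MP_69fea5_lc.S4.I_K
import Pool.Agent.Work.MP_69fea5_lc.S4.I_M

set_option autoImplicit false

/-! The main theorem: colourings without `Σ⁰₄` solutions. -/

namespace Pool.Agent.Work.MP_69fea5_lc.S4

open Pool.Agent.Work.MP_69fea5_lc.DJ Primrec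

theorem m_ : M :=
  m_of (h_of (c_of a1 a2 a3 b1 b2 n1 n2 n3) (e_of d1 d2) f1) (i_of f1 f2) (j1_of f2) j2

theorem pr_c4 : Primrec c4 := g4 tgt (g3_of (g2_of g1))

/-- The conclusion about a set `X`: it is not `Σ⁰₄`, and it computes functions which avoid the
partial functions with a `Σ⁰₄` graph. -/
def Concl (X : Set ℕ) : Prop :=
  (¬ ∃ R : ℕ → ℕ → ℕ → ℕ → ℕ → Bool,
    (Computable fun t : ℕ × ℕ × ℕ × ℕ × ℕ => R t.1 t.2.1 t.2.2.1 t.2.2.2.1 t.2.2.2.2) ∧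
    ∀ n, n ∈ X ↔ ∃ i, ∀ j, ∃ u, ∀ l, R n i j u l = true) ∧
  ∀ R : ℕ → ℕ → ℕ → ℕ → ℕ → ℕ → Bool,
    (Computable fun t : ℕ × ℕ × ℕ × ℕ × ℕ × ℕ =>
      R t.1 t.2.1 t.2.2.1 t.2.2.2.1 t.2.2.2.2.1 t.2.2.2.2.2) →
    ∃ f : ℕ → ℕ, Nat.RecursiveIn {chi X} (fun n => Part.some (f n)) ∧
      ∀ n, ¬ ∀ y, (∃ i, ∀ j, ∃ u, ∀ l, R n y i j u l = true) ↔ y = f n

/-- Two colours, all finite sums. -/
theorem two {X : Set ℕ} (hX : X.Infinite) (hpos : ∀ x ∈ X, 0 < x)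
    (hc : ∃ b, ∀ F : Finset ℕ, F.Nonempty → (↑F : Set ℕ) ⊆ X → c4 (∑ x ∈ F, x) = b) :
    Concl X := by
  obtain ⟨Y, hY⟩ := k1 X hX hpos hc
  exact m_ X Y hY

/-- The colouring with six colours. -/
noncomputable def d6 (n : ℕ) : ℕ := 2 * col3 (col A₀.WE) n + (c4 n).toNat

lemma d6_lt (n : ℕ) : d6 n < 6 := by
  have h1 : col3 (col A₀.WE) n < 3 := Nat.mod_lt _ (by norm_num)
  have h2 := Bool.toNat_le (c4 n)
  unfold d6
  omega

lemma pr_d6 : Primrec d6 :=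
  nat_add.comp (nat_mul.comp (const 2) (pr_col3 (pr_col A₀_prim.WE)))
    ((Primrec.dom_bool Bool.toNat).comp pr_c4)

lemma d6_inj {n m : ℕ} (h : d6 n = d6 m) :
    col3 (col A₀.WE) n = col3 (col A₀.WE) m ∧ c4 n = c4 m := by
  unfold d6 at h
  cases h1 : c4 n <;> cases h2 : c4 m <;> rw [h1, h2] at h <;>
    simp only [Bool.toNat_false, Bool.toNat_true] at h <;> first
      | exact ⟨by omega, rfl⟩
      | (exfalso; omega)

/-- Six colours, sums of at most four terms. -/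
theorem six {X : Set ℕ} (hX : X.Infinite) (hpos : ∀ x ∈ X, 0 < x) (hc : Mono4 d6 X) :
    (∀ S : Set ℕ, (∃ R : ℕ → ℕ → ℕ → Bool, (Computable fun t : ℕ × ℕ × ℕ => R t.1 t.2.1 t.2.2) ∧
      ∀ n, n ∈ S ↔ ∃ s, ∀ t, R n s t = true) → Nat.RecursiveIn {chi X} (chi S)) ∧
    Concl X := by
  classical
  have hc' := hc
  obtain ⟨b, s1, s2, s3, s4⟩ := hc.sums
  obtain ⟨x₀, hx₀⟩ := hX.nonempty
  have hb : d6 x₀ = b := s1 x₀ hx₀
  set t := col3 (col A₀.WE) x₀ with ht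
  have g : ∀ n, d6 n = b → col3 (col A₀.WE) n = t ∧ c4 n = c4 x₀ := fun n hn =>
    d6_inj (hn.trans hb.symm)
  have h1 : ∀ x ∈ X, col3 (col A₀.WE) x = t := fun x hx => (g _ (s1 x hx)).1
  have h2 : ∀ x ∈ X, ∀ y ∈ X, x < y → col3 (col A₀.WE) (x + y) = t :=
    fun x hx y hy hxy => (g _ (s2 x hx y hy hxy)).1
  have h3 : ∀ x ∈ X, ∀ y ∈ X, ∀ z ∈ X, x < y → y < z → col3 (col A₀.WE) (x + y + z) = t :=
    fun x hx y hy z hz hxy hyz => (g _ (s3 x hx y hy z hz hxy hyz)).1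
  have h4 : ∀ x ∈ X, ∀ y ∈ X, ∀ z ∈ X, ∀ w ∈ X, x < y → y < z → z < w →
      col3 (col A₀.WE) (x + y + z + w) = t :=
    fun x hx y hy z hz w hw hxy hyz hzw => (g _ (s4 x hx y hy z hz w hw hxy hyz hzw)).1
  constructor
  · rintro S ⟨R, hR, hS⟩
    obtain ⟨e, he⟩ := sigma_two_reduce hR hS
    have k1 := computesK4 A₀_prim hX hpos h1 h2 h3 h4
    have k2 := comp_rec k1 (g := fun n => Nat.pair e n)
      (Primrec₂.natPair.comp (const e) Primrec.id)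
    refine k2.of_eq (fun n => ?_)
    unfold chi
    simp only [he]
  · have hf := fiber_finite hpos h1 h2 h4
    obtain ⟨b', hb'⟩ := hc'
    refine m_ X X (k2 X hX hpos hf ⟨c4 x₀, fun F hF3 hF4 hFX => ?_⟩)
    have h5 := hb' F (Finset.card_pos.mp (by omega)) hF4 hFX
    have h6 : d6 x₀ = b' := by
      have := hb' {x₀} (by simp) (by simp) (by simpa using hx₀)
      simpa using this
    exact (d6_inj (h5.trans h6.symm)).2

end Pool.Agent.Work.MP_69fea5_lc.S4
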