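import Pool.Agent.Work.MP_69fea5_lc.S4.Defs

set_option autoImplicit false

/-! Statements of the lemmas for the colouring without `Σ⁰₄` solutions. -/

namespace Pool.Agent.Work.MP_69fea5_lc.S4

open Pool.Agent.Work.MP_69fea5_lc.DJ

/-- A1: letters in the bad case. -/
def A1 : Prop := ∀ g : ℕ → ℕ → ℕ, Mono g → ¬ Good g → ∃ b T, ∀ a, T ≤ a →
  (∀ c, a < c → b ≤ gl g a c) ∧ ∃ C, ∀ c, C ≤ c → gl g a c = b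

/-- A2: letters in the good case. -/
def A2 : Prop := ∀ g : ℕ → ℕ → ℕ, Mono g → Good g → ∀ p, ∃ T, ∀ a, T ≤ a → ∀ c, a < c →
  p < gl g a c

/-- A3: the gap letters of gaps starting at `a` stabilise. -/
def A3 : Prop := ∀ g : ℕ → ℕ → ℕ, Mono g → ∀ a, ∃ q C, ∀ c, C ≤ c → gl g a c = q

/-- B1: the letters of a number come from its positions. -/
def B1 : Prop := ∀ (g : ℕ → ℕ → ℕ) (n : ℕ), ∀ x ∈ rw g n, ∃ a ∈ bits n, ∃ c ∈ bits n, a < c ∧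
  x = gl g a c

/-- B2: the word of a sum. -/
def B2 : Prop := ∀ (g : ℕ → ℕ → ℕ) (x y k : ℕ), 0 < x → 0 < y → x < 2 ^ k → 2 ^ k ∣ y →
  rw g (x + y) = rw g y ++ gl g (hi (bits x)) (lo (bits y)) :: rw g x

/-- N1 -/
def N1 : Prop := ∀ (p : ℕ) (u v : List ℕ), (∀ x ∈ v, p < x) → nd (v ++ p :: u) = nd v + nd (p :: u)

/-- N2 -/
def N2 : Prop := ∀ (b : ℕ) (u v : List ℕ), (∀ x ∈ u, b ≤ x) → (∀ x ∈ v, b ≤ x) → b ∈ u →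
  nd (v ++ b :: u) + (if b ∈ v then 1 else 0) = nd v + nd u

/-- N3 -/
def N3 : Prop := ∀ (b : ℕ) (u : List ℕ), (∀ x ∈ u, b < x) → nd (b :: u) = nd u + 1

/-- C: finitely many tests can be answered correctly by one sum of three elements. -/
def C : Prop := ∀ (K : ℕ) (g : ℕ → ℕ → ℕ → ℕ), (∀ k, Mono (g k)) → ∀ Y : Set ℕ,
  (∀ B, ∃ y ∈ Y, 0 < y ∧ 2 ^ B ∣ y) → ∀ B, ∃ y₁ ∈ Y, ∃ y₂ ∈ Y, ∃ y₃ ∈ Y,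
    0 < y₁ ∧ 0 < y₂ ∧ 0 < y₃ ∧ 2 ^ B ∣ y₁ ∧ 2 ^ y₁ ∣ y₂ ∧ 2 ^ y₂ ∣ y₃ ∧
    ∀ k < K, (cnt (g k) (y₁ + y₂ + y₃) % 3 = 1 ↔ ¬ Good (g k))

/-- D1: the start of the visible part is a position. -/
def D1 : Prop := ∀ (tg : ℕ → ℕ → ℕ) (b N : ℕ), N % 2 ^ b ≠ 0 →
  N.testBit (St tg b N).1 = true ∧ (St tg b N).1 < b

/-- D2: at the least hit the colour is flipped. -/
def D2 : Prop := ∀ (tg : ℕ → ℕ → ℕ) (b Z x m : ℕ), 2 ^ b ∣ Z → Z.testBit b = true → 0 < x →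
  x < 2 ^ b → hitm tg b (x + Z) (St tg b (x + Z)).1 = some m → tg m Z = x →
  co tg (x + Z) = !(co tg Z)

/-- E: one of the targets is flipped. -/
def E : Prop := ∀ (tg : ℕ → ℕ → ℕ) (e b Z : ℕ) (x : ℕ → ℕ), 2 ^ b ∣ Z → Z.testBit b = true →
  e ≤ b → tg 0 Z = 0 → (∀ i < 2 ^ e, 0 < x i ∧ x i < 2 ^ b ∧ tg (2 ^ e + i) Z = x i) →
  (∀ i < 2 ^ e, ∀ j < 2 ^ e, i ≠ j → Nat.log2 (x i) ≠ Nat.log2 (x j)) →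
  ∃ i < 2 ^ e, co tg (x i + Z) = !(co tg Z)

/-- F1 -/
def F1 : Prop := ∀ e k, Mono (gg e k)

/-- F2 -/
def F2 : Prop := ∀ (e k j : ℕ) (f : ℕ → ℕ),
  ((Denumerable.ofNat Nat.Partrec.Code e).eval = fun v => Part.some (f v)) →
  ((∃ B, ∀ t, gg e k j t ≤ B) ↔ ∃ u, ∀ l,
    f (Nat.pair e (Nat.pair k (Nat.pair j (Nat.pair u l)))) ≠ 0)

/-- G1 -/
def G1 : Prop := Primrec fun t : (ℕ × ℕ) × ℕ × ℕ => gg t.1.1 t.1.2 t.2.1 t.2.2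

/-- G2 -/
def G2 : Prop := Primrec fun t : (ℕ × ℕ) × ℕ => cnt (gg t.1.1 t.1.2) t.2

/-- G3 -/
def G3 : Prop := Primrec₂ tgt

/-- G4 -/
def G4 : Prop := ∀ tg : ℕ → ℕ → ℕ, Primrec₂ tg → Primrec (co tg)

/-- The lists of `2 ^ e` elements of `X` with different highest positions. -/
def Lst (X : Set ℕ) (e k : ℕ) : Prop := ∀ i < 2 ^ e, (lst k).getD i 0 ∈ X ∧
  ∀ j < 2 ^ e, i ≠ j → Nat.log2 ((lst k).getD i 0) ≠ Nat.log2 ((lst k).getD j 0)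

/-- H: the key theorem. -/
def H : Prop := ∀ (X Y : Set ℕ), (∀ x ∈ X, 0 < x) → (∀ B, ∃ y ∈ Y, 0 < y ∧ 2 ^ B ∣ y) →
  (∀ x ∈ X, ∃ B, ∀ y₁ ∈ Y, ∀ y₂ ∈ Y, ∀ y₃ ∈ Y, 2 ^ B ∣ y₁ → 2 ^ y₁ ∣ y₂ → 2 ^ y₂ ∣ y₃ →
    c4 (x + (y₁ + y₂ + y₃)) = c4 (y₁ + y₂ + y₃)) →
  ∀ e, (∃ k, Good (gg e k)) → ∃ k, Good (gg e k) ∧ ¬ Lst X e k

/-- I: the lists from a `Σ⁰₄` set. -/
def I : Prop := ∀ (X : Set ℕ), X.Infinite → (∀ x ∈ X, 0 < x) → ∀ R : ℕ → ℕ → ℕ → ℕ → ℕ → Bool,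
  (Computable fun t : ℕ × ℕ × ℕ × ℕ × ℕ => R t.1 t.2.1 t.2.2.1 t.2.2.2.1 t.2.2.2.2) →
  (∀ n, n ∈ X ↔ ∃ i, ∀ j, ∃ u, ∀ l, R n i j u l = true) →
  ∃ e, (∃ k, Good (gg e k)) ∧ ∀ k, Good (gg e k) → Lst X e k

/-- J1: indices for the sections of a `Σ⁰₄` relation. -/
def J1 : Prop := ∀ R : ℕ → ℕ → ℕ → ℕ → ℕ → ℕ → Bool,
  (Computable fun t : ℕ × ℕ × ℕ × ℕ × ℕ × ℕ =>
    R t.1 t.2.1 t.2.2.1 t.2.2.2.1 t.2.2.2.2.1 t.2.2.2.2.2) →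
  ∃ E : ℕ → ℕ, Primrec E ∧ ∀ n y i, Good (gg (E n) (Nat.pair y i)) ↔
    ∀ j, ∃ u, ∀ l, R n y i j u l = true

/-- J2: lists computed from an infinite set. -/
def J2 : Prop := ∀ X : Set ℕ, X.Infinite → (∀ x ∈ X, 0 < x) → ∀ E : ℕ → ℕ, Primrec E →
  ∃ f : ℕ → ℕ, Nat.RecursiveIn {chi X} (fun n => Part.some (f n)) ∧
    ∀ n i, Lst X (E n) (Nat.pair (f n) i)

/-- The hypothesis on `X` and `Y` in the key theorem. -/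
def Env (X Y : Set ℕ) : Prop := (∀ x ∈ X, 0 < x) ∧ X.Infinite ∧
  (∀ B, ∃ y ∈ Y, 0 < y ∧ 2 ^ B ∣ y) ∧
  (∀ x ∈ X, ∃ B, ∀ y₁ ∈ Y, ∀ y₂ ∈ Y, ∀ y₃ ∈ Y, 2 ^ B ∣ y₁ → 2 ^ y₁ ∣ y₂ → 2 ^ y₂ ∣ y₃ →
    c4 (x + (y₁ + y₂ + y₃)) = c4 (y₁ + y₂ + y₃))

/-- K1: a solution of Hindman's theorem. -/
def K1 : Prop := ∀ (X : Set ℕ), X.Infinite → (∀ x ∈ X, 0 < x) →
  (∃ b, ∀ F : Finset ℕ, F.Nonempty → (↑F : Set ℕ) ⊆ X → c4 (∑ x ∈ F, x) = b) →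
  ∃ Y, Env X Y

/-- K2: a set homogeneous for sums of three and four terms with finite fibers. -/
def K2 : Prop := ∀ (X : Set ℕ), X.Infinite → (∀ x ∈ X, 0 < x) →
  (∀ l, {x ∈ X | lo (bits x) = l}.Finite) →
  (∃ b, ∀ F : Finset ℕ, 3 ≤ F.card → F.card ≤ 4 → (↑F : Set ℕ) ⊆ X → c4 (∑ x ∈ F, x) = b) →
  Env X X

/-- M: the final theorem about one set. -/
def M : Prop := ∀ (X Y : Set ℕ), Env X Y →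
  (¬ ∃ R : ℕ → ℕ → ℕ → ℕ → ℕ → Bool,
    (Computable fun t : ℕ × ℕ × ℕ × ℕ × ℕ => R t.1 t.2.1 t.2.2.1 t.2.2.2.1 t.2.2.2.2) ∧
    ∀ n, n ∈ X ↔ ∃ i, ∀ j, ∃ u, ∀ l, R n i j u l = true) ∧
  ∀ R : ℕ → ℕ → ℕ → ℕ → ℕ → ℕ → Bool,
    (Computable fun t : ℕ × ℕ × ℕ × ℕ × ℕ × ℕ =>
      R t.1 t.2.1 t.2.2.1 t.2.2.2.1 t.2.2.2.2.1 t.2.2.2.2.2) →
    ∃ f : ℕ → ℕ, Nat.RecursiveIn {chi X} (fun n => Part.some (f n)) ∧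
      ∀ n, ¬ ∀ y, (∃ i, ∀ j, ∃ u, ∀ l, R n y i j u l = true) ↔ y = f n

end Pool.Agent.Work.MP_69fea5_lc.S4
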